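import Pool.Agent.W784.HP.Defs

/-! Project HP (helper784), part EX: existence of the coefficients. -/

set_option autoImplicit false

open MeasureTheory ProbabilityTheory Filter Topology

namespace Pool.Agent.W639.HP

open Pool.Agent.W784.HP

theorem gauss_prob : IsProbabilityMeasure ((volume : Measure ℂ).withDensity
    (fun w => ENNReal.ofReal (Real.exp (-‖w‖ ^ 2) / Real.pi))) := by
  have hI : ∫ v : ℂ, Real.exp (-1 * ‖v‖ ^ 2) = Real.pi := by
    rw [GaussianFourier.integral_rexp_neg_mul_sq_norm one_pos]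
    simp
  have hint : Integrable (fun v : ℂ => Real.exp (-1 * ‖v‖ ^ 2)) := by
    by_contra h
    rw [integral_undef h] at hI
    exact Real.pi_ne_zero hI.symm
  have he : (fun v : ℂ => Real.exp (-‖v‖ ^ 2) / Real.pi) =
      fun v : ℂ => Real.exp (-1 * ‖v‖ ^ 2) / Real.pi := by
    funext v
    rw [neg_one_mul]
  constructor
  rw [withDensity_apply _ MeasurableSet.univ, Measure.restrict_univ,
    ← ofReal_integral_eq_lintegral_ofReal]
  · rw [he, integral_div, hI, div_self Real.pi_ne_zero, ENNReal.ofReal_one]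
  · rw [he]
    exact hint.div_const _
  · exact ae_of_all _ fun v => by positivity

theorem exists_seq : ∃ (Ω : Type) (_ : MeasurableSpace Ω) (P : Measure Ω) (_ : IsProbabilityMeasure P)
    (ξ : ℕ → Ω → ℂ), IsGaussianSeq P ξ := by
  have := gauss_prob
  obtain ⟨Ω, mΩ, P, X, h1, h2, h3, h4⟩ := exists_iid ℕ ((volume : Measure ℂ).withDensity
    (fun w => ENNReal.ofReal (Real.exp (-‖w‖ ^ 2) / Real.pi)))
  exact ⟨Ω, mΩ, P, h4, X, ⟨h1, fun n => (h2 n).map_eq, h3⟩⟩

end Pool.Agent.W639.HP
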