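import Pool.Agent.W784.HP.Defs

/-! Project HP (helper784), part ONE: one-variable Gaussian bounds. -/

set_option autoImplicit false

open MeasureTheory ProbabilityTheory Filter Topology

namespace Pool.Agent.W639.HP

open Pool.Agent.W784.HP

/-- the density -/
noncomputable def dn (w : ℂ) : ENNReal := ENNReal.ofReal (Real.exp (-‖w‖ ^ 2) / Real.pi)

theorem prob_eq {Ω : Type*} [MeasurableSpace Ω] {P : Measure Ω} {ξ : ℕ → Ω → ℂ}
    (h : IsGaussianSeq P ξ) (n : ℕ) {A : Set ℂ} (hA : MeasurableSet A) :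
    P {ω | ξ n ω ∈ A} = ∫⁻ w in A, dn w := by
  have h1 : P.map (ξ n) A = P {ω | ξ n ω ∈ A} := Measure.map_apply (h.measurable n) hA
  rw [← h1, h.law n, withDensity_apply _ hA]
  rfl

theorem lower {Ω : Type*} [MeasurableSpace Ω] {P : Measure Ω} [IsProbabilityMeasure P]
    {ξ : ℕ → Ω → ℂ} (h : IsGaussianSeq P ξ) (n : ℕ) {A : Set ℂ} (hA : MeasurableSet A) (c : ℝ)
    (hc : 0 ≤ c) (hle : ∀ w ∈ A, c ≤ Real.exp (-‖w‖ ^ 2) / Real.pi) :
    c * (volume A).toReal ≤ (P {ω | ξ n ω ∈ A}).toReal := by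
  have h1 : ENNReal.ofReal c * volume A ≤ P {ω | ξ n ω ∈ A} := by
    rw [prob_eq h n hA, ← setLIntegral_const]
    exact setLIntegral_mono' hA fun w hw => ENNReal.ofReal_le_ofReal (hle w hw)
  have h2 := ENNReal.toReal_mono (measure_ne_top P _) h1
  rwa [ENNReal.toReal_mul, ENNReal.toReal_ofReal hc] at h2

theorem one_var {Ω : Type*} [MeasurableSpace Ω] (P : Measure Ω) [IsProbabilityMeasure P]
    (ξ : ℕ → Ω → ℂ) (h : IsGaussianSeq P ξ) (n : ℕ) :
    (∀ δ : ℝ, 0 ≤ δ → δ ≤ 1 → Real.exp (-1) * δ ^ 2 ≤ (P {ω | ‖ξ n ω‖ ≤ δ}).toReal) ∧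
    (3 * Real.exp (-4) ≤ (P {ω | 1 ≤ ‖ξ n ω‖}).toReal) ∧
    (∀ t : ℝ, 0 ≤ t → (P {ω | t < ‖ξ n ω‖}).toReal ≤ 2 * Real.exp (-(t ^ 2 / 2))) := by
  have hpi := Real.pi_pos
  refine ⟨?_, ?_, ?_⟩
  · intro δ hδ hδ1
    have h1 := lower h n (A := Metric.closedBall 0 δ) measurableSet_closedBall
      (Real.exp (-1) / Real.pi) (by positivity) (fun w hw => by
        rw [mem_closedBall_zero_iff] at hw
        have : ‖w‖ ^ 2 ≤ 1 := by nlinarith [norm_nonneg w]
        gcongr)
    have h2 : (volume (Metric.closedBall (0 : ℂ) δ)).toReal = δ ^ 2 * Real.pi := by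
      rw [Complex.volume_closedBall, ENNReal.toReal_mul, ENNReal.toReal_pow,
        ENNReal.toReal_ofReal hδ]
      rfl
    have h3 : {ω | ‖ξ n ω‖ ≤ δ} = {ω | ξ n ω ∈ Metric.closedBall (0 : ℂ) δ} := by
      ext ω
      simp
    rw [h3]
    refine le_trans (le_of_eq ?_) h1
    rw [h2]
    field_simp
  · have h1 := lower h n (A := Metric.closedBall 0 2 \ Metric.ball 0 1)
      (measurableSet_closedBall.diff measurableSet_ball)
      (Real.exp (-4) / Real.pi) (by positivity) (fun w hw => by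
        have hw1 := hw.1
        rw [mem_closedBall_zero_iff] at hw1
        have : ‖w‖ ^ 2 ≤ 4 := by nlinarith [norm_nonneg w]
        gcongr)
    have h2 : (volume (Metric.closedBall (0 : ℂ) 2 \ Metric.ball 0 1)).toReal = 3 * Real.pi := by
      have hsub : Metric.ball (0 : ℂ) 1 ⊆ Metric.closedBall 0 2 :=
        Metric.ball_subset_closedBall.trans (Metric.closedBall_subset_closedBall (by norm_num))
      have h4 := measure_diff (μ := (volume : Measure ℂ)) hsub
        measurableSet_ball.nullMeasurableSet measure_ball_lt_top.ne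
      have h5 : (volume (Metric.closedBall (0 : ℂ) 2)).toReal = 4 * Real.pi := by
        rw [Complex.volume_closedBall, ENNReal.toReal_mul, ENNReal.toReal_pow,
          ENNReal.toReal_ofReal (by norm_num)]
        norm_num
      have h6 : (volume (Metric.ball (0 : ℂ) 1)).toReal = Real.pi := by
        rw [Complex.volume_ball, ENNReal.toReal_mul, ENNReal.toReal_pow,
          ENNReal.toReal_ofReal (by norm_num)]
        norm_num
      rw [h4, ENNReal.toReal_sub_of_le (measure_mono hsub) measure_closedBall_lt_top.ne, h5, h6]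
      ring
    have h3 : {ω | ξ n ω ∈ Metric.closedBall (0 : ℂ) 2 \ Metric.ball 0 1} ⊆ {ω | 1 ≤ ‖ξ n ω‖} := by
      intro ω hω
      have := hω.2
      rw [mem_ball_zero_iff] at this
      exact not_lt.1 this
    have h4 := ENNReal.toReal_mono (measure_ne_top P _) (measure_mono h3 (μ := P))
    refine le_trans (le_of_eq ?_) (h1.trans h4)
    rw [h2]
    field_simp
  · intro t ht
    have hI : ∫ v : ℂ, Real.exp (-(1/2) * ‖v‖ ^ 2) = 2 * Real.pi := by
      rw [GaussianFourier.integral_rexp_neg_mul_sq_norm (by norm_num)]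
      simp
      ring
    have hint : Integrable (fun v : ℂ => Real.exp (-(1/2) * ‖v‖ ^ 2)) := by
      by_contra h
      rw [integral_undef h] at hI
      linarith
    have hms : MeasurableSet {w : ℂ | t < ‖w‖} := measurableSet_lt measurable_const measurable_norm
    have h1 : P {ω | t < ‖ξ n ω‖} ≤ ENNReal.ofReal (2 * Real.exp (-(t ^ 2 / 2))) := by
      have h2 : P {ω | t < ‖ξ n ω‖} = ∫⁻ w in {w : ℂ | t < ‖w‖}, dn w := prob_eq h n hms
      rw [h2]
      calc ∫⁻ w in {w : ℂ | t < ‖w‖}, dn w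
          ≤ ∫⁻ w in {w : ℂ | t < ‖w‖},
            ENNReal.ofReal (Real.exp (-(t ^ 2 / 2)) / Real.pi * Real.exp (-(1/2) * ‖w‖ ^ 2)) := by
            refine setLIntegral_mono' hms fun w hw => ENNReal.ofReal_le_ofReal ?_
            rw [div_mul_eq_mul_div, ← Real.exp_add]
            have hw' : t < ‖w‖ := hw
            have : t ^ 2 ≤ ‖w‖ ^ 2 := by nlinarith
            gcongr
            linarith
        _ ≤ ∫⁻ w : ℂ,
            ENNReal.ofReal (Real.exp (-(t ^ 2 / 2)) / Real.pi * Real.exp (-(1/2) * ‖w‖ ^ 2)) :=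
            setLIntegral_le_lintegral _ _
        _ = ENNReal.ofReal (2 * Real.exp (-(t ^ 2 / 2))) := by
            rw [← ofReal_integral_eq_lintegral_ofReal (hint.const_mul _)
              (ae_of_all _ fun v => by positivity), integral_const_mul, hI]
            congr 1
            field_simp
    exact ENNReal.toReal_le_of_le_ofReal (by positivity) h1

end Pool.Agent.W639.HP
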