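import Pool.Agent.W518.PR.Stm

/-! Project PR (helper518), part TOP: top degree. -/

set_option autoImplicit false

open CategoryTheory Pool.Agent.H907R3

namespace Pool.Agent.W639.PRTop

open Pool.Agent.W518.PR

theorem eM_eight (k : Fin 8 → Fin 7) : (eM 8 k : Lam) = 0 := by
  obtain ⟨a, b, hab, h⟩ := Fintype.exists_ne_map_eq_of_card_lt k (by simp)
  rw [eM]
  refine AlternatingMap.map_eq_zero_of_eq _ _ ?_ hab
  simp only [h]

theorem top_mul {I : Finset (Fin 6)} {Γ : Set ℤ} {ω : Lam} (h : ω ∈ T 7 I Γ) : gr * ω = 0 := by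
  have h1 : (AddMonoidHom.mulLeft gr) ω ∈ (⊥ : AddSubgroup Lam) := by
    refine T_map (AddMonoidHom.mulLeft gr) ⊥ (fun f _ k => ?_) h
    rw [AddSubgroup.mem_bot, AddMonoidHom.coe_mulLeft, gr_eq, Finset.sum_mul]
    refine Finset.sum_eq_zero fun l _ => ?_
    rw [smul_mul_assoc, mul_smul_comm, eM_cons, eM_eight, smul_zero, smul_zero]
  rw [AddSubgroup.mem_bot] at h1
  exact h1

theorem main : S_top := by
  intro b
  funext I
  refine SetLike.ext fun ω => ?_
  constructor
  · intro h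
    exact (mem_Z.1 h).1
  · intro h
    exact mem_Z.2 ⟨h, top_mul h⟩

end Pool.Agent.W639.PRTop
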