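import Pool.Agent.W997.NL.Stm

set_option autoImplicit false

namespace Pool.Agent.W639.NLCARD

open Pool.Agent.W997.NL
open Pool.Agent.W997.SR (Dag)

/-- The nodes of the first graph, as a sum. -/
def bEquiv (I S : Type) : BCell I S ≃ (I ⊕ S) ⊕ I where
  toFun
    | .inp p => Sum.inl (Sum.inl p)
    | .mid x => Sum.inl (Sum.inr x)
    | .out p => Sum.inr p
  invFun
    | Sum.inl (Sum.inl p) => .inp p
    | Sum.inl (Sum.inr x) => .mid x
    | Sum.inr p => .out p
  left_inv v := by cases v <;> rfl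
  right_inv v := by rcases v with (v | v) | v <;> rfl

/-- The nodes of the composite graph, as a sum. -/
def cEquiv (I S V : Type) :
    Cell I S V ≃ ((Bool × I) ⊕ (Bool × I)) ⊕ ((S ⊕ S) ⊕ (V ⊕ V)) where
  toFun
    | .inp p => Sum.inl (Sum.inl p)
    | .out p => Sum.inl (Sum.inr p)
    | .s1 x => Sum.inr (Sum.inl (Sum.inl x))
    | .s2 x => Sum.inr (Sum.inl (Sum.inr x))
    | .g1 x => Sum.inr (Sum.inr (Sum.inl x))
    | .g2 x => Sum.inr (Sum.inr (Sum.inr x))
  invFun
    | Sum.inl (Sum.inl p) => .inp p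
    | Sum.inl (Sum.inr p) => .out p
    | Sum.inr (Sum.inl (Sum.inl x)) => .s1 x
    | Sum.inr (Sum.inl (Sum.inr x)) => .s2 x
    | Sum.inr (Sum.inr (Sum.inl x)) => .g1 x
    | Sum.inr (Sum.inr (Sum.inr x)) => .g2 x
  left_inv v := by cases v <;> rfl
  right_inv v := by rcases v with (v | v) | ((v | v) | (v | v)) <;> rfl

theorem card_bcell {I S : Type} [Fintype I] [Fintype S] [Fintype (BCell I S)] :
    Fintype.card (BCell I S) = 2 * Fintype.card I + Fintype.card S := by
  rw [Fintype.card_congr (bEquiv I S), Fintype.card_sum, Fintype.card_sum]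
  omega

theorem card_cell {I S V : Type} [Fintype I] [Fintype S] [Fintype V] [Fintype (Cell I S V)] :
    Fintype.card (Cell I S V) = 4 * Fintype.card I + 2 * Fintype.card S + 2 * Fintype.card V := by
  rw [Fintype.card_congr (cEquiv I S V)]
  simp only [Fintype.card_sum, Fintype.card_prod, Fintype.card_bool]
  omega

theorem card_shift (r : ℕ) : Fintype.card (shift r).G.Γ = (2 * r + 1) * 2 ^ r := by
  have h : Fintype.card (shift r).G.Γ = Fintype.card (Fin (2 * r + 1) × Fin (2 ^ r)) :=
    Fintype.card_congr (Equiv.refl _)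
  rw [h, Fintype.card_prod, Fintype.card_fin, Fintype.card_fin]

theorem card_base {I : Type} [Fintype I] [DecidableEq I] (S : IOG I) :
    Fintype.card (base S).G.Γ = 2 * Fintype.card I + Fintype.card S.G.Γ := by
  have h : Fintype.card (base S).G.Γ = Fintype.card (BCell I S.G.Γ) :=
    Fintype.card_congr (Equiv.refl _)
  rw [h, card_bcell]

theorem card_comp {I : Type} [Fintype I] [DecidableEq I] (S G : IOG I) :
    Fintype.card (comp S G).G.Γ =
      4 * Fintype.card I + 2 * Fintype.card S.G.Γ + 2 * Fintype.card G.G.Γ := by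
  have h : Fintype.card (comp S G).G.Γ = Fintype.card (Cell I S.G.Γ G.G.Γ) :=
    Fintype.card_congr (Equiv.refl _)
  rw [h, card_cell]

theorem main : S_CARD := by
  intro i
  induction i with
  | zero =>
    have h : Fintype.card (fam 0).G.Γ = 2 * Fintype.card (Fin (2 ^ 6)) +
        Fintype.card (shift 6).G.Γ := card_base (shift 6)
    rw [h, card_shift, Fintype.card_fin]
    norm_num
  | succ i ih =>
    have h : Fintype.card (fam (i + 1)).G.Γ = 4 * Fintype.card (Idx i) +
        2 * Fintype.card ((shift (6 + i)).reindex (num i)).G.Γ + 2 * Fintype.card (fam i).G.Γ :=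
      card_comp _ _
    have h2 : Fintype.card ((shift (6 + i)).reindex (num i)).G.Γ =
        (2 * (6 + i) + 1) * 2 ^ (6 + i) := card_shift (6 + i)
    rw [h, h2, card_idx]
    have e : 2 ^ (6 + (i + 1)) = 2 * 2 ^ (6 + i) := by ring
    rw [e]
    clear h h2 e
    generalize Fintype.card (fam i).G.Γ = c at *
    generalize 2 ^ (6 + i) = x at *
    have h3 : 2 * c + 33 * (2 * x) = 2 * (((6 + i) ^ 2 + 2 * (6 + i)) * x) := by
      rw [← ih]; ring
    calc 4 * x + 2 * ((2 * (6 + i) + 1) * x) + 2 * c + 33 * (2 * x)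
        = 4 * x + 2 * ((2 * (6 + i) + 1) * x) + (2 * c + 33 * (2 * x)) := by ring
      _ = 4 * x + 2 * ((2 * (6 + i) + 1) * x) + 2 * (((6 + i) ^ 2 + 2 * (6 + i)) * x) := by rw [h3]
      _ = ((6 + (i + 1)) ^ 2 + 2 * (6 + (i + 1))) * (2 * x) := by ring

end Pool.Agent.W639.NLCARD
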