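import Pool.Agent.W510.CG.Stm

/-! Project CG (helper510), part HTF: finite local transitivity. -/

set_option autoImplicit false

namespace Pool.Agent.W639.CGHtf

open Pool.Agent.W510.CG

theorem strong {M V B : Type} {br : V → M → B} {G : Subgroup (Equiv.Perm M)} (hT : IsTree br G)
    (γ : V) (b0 : B) (f : M → M) (S : Set M) (hS : S.Finite) :
    (∀ x ∈ S, br γ x ≠ b0) → Set.InjOn (br γ) S → (∀ x ∈ S, br γ (f x) ≠ b0) →
    Set.InjOn (fun x => br γ (f x)) S →
    ∃ g ∈ G, (∀ z : M, br γ z = b0 → g z = z) ∧ (∀ x ∈ S, g x = f x) ∧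
      ∀ z z' : M, br γ (g z) = br γ (g z') ↔ br γ z = br γ z' := by
  induction S, hS using Set.Finite.induction_on with
  | empty =>
    intro _ _ _ _
    exact ⟨1, G.one_mem, fun _ _ => rfl, fun x hx => absurd hx (Set.notMem_empty x), fun _ _ => Iff.rfl⟩
  | @insert s S' hs _ ih =>
    intro h1 h2 h3 h4
    obtain ⟨g', hg', k1, k2, k3⟩ := ih (fun x hx => h1 x (Set.mem_insert_of_mem s hx))
      (h2.mono (Set.subset_insert s S')) (fun x hx => h3 x (Set.mem_insert_of_mem s hx))
      (h4.mono (Set.subset_insert s S'))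
    have hsm : s ∈ insert s S' := Set.mem_insert s S'
    have hx : br γ (g' s) ≠ b0 := by
      intro h
      have h5 := k1 _ h
      have h6 : g' s = s := g'.injective h5
      rw [h6] at h
      exact h1 s hsm h
    obtain ⟨h, hh, l1, l2, l3⟩ := hT.ht γ (g' s) (f s)
    refine ⟨h * g', G.mul_mem hh hg', fun z hz => ?_, fun t ht => ?_, fun z z' => ?_⟩
    · rw [Equiv.Perm.mul_apply, k1 z hz]
      exact l2 z (by rw [hz]; exact fun e => hx e.symm) (by rw [hz]; exact fun e => h3 s hsm e.symm)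
    · rw [Equiv.Perm.mul_apply]
      rcases Set.mem_insert_iff.1 ht with rfl | ht'
      · exact l1
      · rw [k2 t ht']
        have hne : t ≠ s := fun e => hs (e ▸ ht')
        refine l2 (f t) ?_ ?_
        · intro e
          rw [← k2 t ht'] at e
          exact hne (h2 ht hsm ((k3 t s).1 e))
        · intro e
          exact hne (h4 ht hsm e)
    · rw [Equiv.Perm.mul_apply, Equiv.Perm.mul_apply, l3, k3]

theorem main : S_HTF := by
  intro M V B br G hT γ b0 S f hS h1 h2 h3 h4
  obtain ⟨g, hg, k1, k2, -⟩ := strong hT γ b0 f S hS h1 h2 h3 h4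
  exact ⟨g, hg, k1, k2⟩

end Pool.Agent.W639.CGHtf
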