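import Pool.Agent.W639.Props

/-!
# Quasi-developability, failure of developability, charts
-/

set_option autoImplicit false

namespace Pool.Agent.W639

open Set Topology

variable {D : Data}

theorem exists_base_seq : ∃ B : ℕ → Set (ℝ × ℝ), (∀ k, IsOpen (B k)) ∧
    ∀ (p : ℝ × ℝ) (U : Set (ℝ × ℝ)), IsOpen U → p ∈ U → ∃ k, p ∈ B k ∧ B k ⊆ U := by
  obtain ⟨b, hbc, -, hb⟩ := TopologicalSpace.exists_countable_basis (ℝ × ℝ)
  have hne : b.Nonempty := by
    obtain ⟨V, hV, -, -⟩ := hb.exists_subset_of_mem_open (mem_univ ((0:ℝ), (0:ℝ))) isOpen_univ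
    exact ⟨V, hV⟩
  obtain ⟨B, rfl⟩ := hbc.exists_eq_range hne
  refine ⟨B, fun k => hb.isOpen ⟨k, rfl⟩, fun p U hU hp => ?_⟩
  obtain ⟨_, ⟨k, rfl⟩, h1, h2⟩ := hb.exists_subset_of_mem_open hp hU
  exact ⟨k, h1, h2⟩

theorem quasi_developable : ∃ G : ℕ → Set (Set (Pt D)),
    (∀ k, ∀ V ∈ G k, IsOpen V) ∧
    ∀ x : Pt D, ∀ U : Set (Pt D), IsOpen U → x ∈ U →
      ∃ k, (∃ V ∈ G k, x ∈ V) ∧ ∀ V ∈ G k, x ∈ V → V ⊆ U := by
  obtain ⟨B, hB1, hB2⟩ := exists_base_seq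
  let e : ℕ ⊕ ℕ ≃ ℕ := Equiv.natSumNatEquivNat
  let G' : ℕ ⊕ ℕ → Set (Set (Pt D)) := Sum.elim (fun k => range fun α => chart D α '' B k)
    (fun k => range fun i => emb D i '' B k)
  refine ⟨fun k => G' (e.symm k), ?_, ?_⟩
  · have key : ∀ j : ℕ ⊕ ℕ, ∀ V ∈ G' j, IsOpen V := by
      rintro (m | m)
      · rintro _ ⟨α, rfl⟩
        exact isOpenMap_chart α _ (hB1 m)
      · rintro _ ⟨i, rfl⟩
        exact isOpenMap_emb i _ (hB1 m)
    exact fun k => key _
  · intro x U hU hx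
    rcases covering x with ⟨i, p, rfl⟩ | ⟨α, p, hp, rfl⟩
    · obtain ⟨k, h1, h2⟩ := hB2 p (emb D i ⁻¹' U) (hU.preimage (continuous_emb i)) hx
      refine ⟨e (Sum.inr k), ?_, ?_⟩
      · simp only [Equiv.symm_apply_apply]
        exact ⟨_, ⟨i, rfl⟩, ⟨p, h1, rfl⟩⟩
      · simp only [Equiv.symm_apply_apply]
        rintro _ ⟨j, rfl⟩ ⟨q, hq, hq2⟩
        obtain ⟨rfl, rfl⟩ := emb_inj hq2
        exact image_subset_iff.2 h2
    · obtain ⟨k, h1, h2⟩ := hB2 p (chart D α ⁻¹' U) (hU.preimage (continuous_chart α))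
        (by rw [mem_preimage, chart_H hp]; exact hx)
      refine ⟨e (Sum.inl k), ?_, ?_⟩
      · simp only [Equiv.symm_apply_apply]
        exact ⟨_, ⟨α, rfl⟩, ⟨p, h1, chart_H hp⟩⟩
      · simp only [Equiv.symm_apply_apply]
        rintro _ ⟨β, rfl⟩ ⟨q, hq, hq2⟩
        obtain ⟨rfl, rfl⟩ := chart_eq_inr hq2
        exact image_subset_iff.2 h2

theorem hOf_zero (n : ℕ) : hOf n 0 = ((n : ℝ) + 1 / 2)⁻¹ := by
  unfold hOf phi; norm_num

theorem G_zero (n : ℕ) (c s : ℝ) : G n c (s, 0) = (c + eps n * phi s, 0) := by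
  have h0 : phi 0 = 0 := by simp [phi]
  unfold G cen
  simp [h0]

theorem not_developable : ¬ (∃ G : ℕ → Set (Set (Pt D)),
    (∀ k, ∀ V ∈ G k, IsOpen V) ∧
    (∀ k, ⋃₀ G k = Set.univ) ∧
    ∀ x : Pt D, ∀ U : Set (Pt D), IsOpen U → x ∈ U →
      ∃ k, ∀ V ∈ G k, x ∈ V → V ⊆ U) := by
  rintro ⟨G, hG1, hG2, hG3⟩
  -- the parts of the lines kept away from the boundary points
  let C : ℝ → ℕ → Set ℝ := fun i k =>
    {u | ∀ V ∈ G k, emb D i (u, 0) ∈ V → V ⊆ range (emb D i)}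
  have hC : ∀ i, (⋃ k, C i k) = Set.univ := by
    intro i
    rw [eq_univ_iff_forall]
    intro u
    obtain ⟨k, hk⟩ := hG3 (emb D i (u, 0)) (range (emb D i)) (isOpenMap_emb i).isOpen_range ⟨_, rfl⟩
    exact mem_iUnion.2 ⟨k, hk⟩
  have hF : ∀ i : ℝ, ∃ κ : ℕ × {q : ℚ × ℚ // q.1 < q.2},
      Ioo (κ.2.1.1 : ℝ) (κ.2.1.2 : ℝ) ⊆ closure (C i κ.1) := by
    intro i
    have h1 : (⋃ k, closure (C i k)) = Set.univ := by
      rw [eq_univ_iff_forall]
      intro u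
      obtain ⟨k, hk⟩ := mem_iUnion.1 ((hC i).symm ▸ mem_univ u : u ∈ ⋃ k, C i k)
      exact mem_iUnion.2 ⟨k, subset_closure hk⟩
    obtain ⟨k, y, hy⟩ := nonempty_interior_of_iUnion_of_closed (fun k => isClosed_closure) h1
    obtain ⟨ε, hε, hb⟩ := Metric.isOpen_iff.1 isOpen_interior y hy
    obtain ⟨q1, hq1, hq1'⟩ := exists_rat_btwn (show y - ε < y by linarith)
    obtain ⟨q2, hq2, hq2'⟩ := exists_rat_btwn (show y < y + ε by linarith)
    refine ⟨(k, ⟨(q1, q2), by exact_mod_cast hq1'.trans hq2⟩), ?_⟩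
    intro u hu
    apply interior_subset
    apply hb
    rw [Metric.mem_ball, Real.dist_eq, abs_lt]
    simp only [mem_Ioo] at hu
    constructor <;> linarith [hu.1, hu.2]
  choose F hF using hF
  obtain ⟨α, κ, hα1, hα2⟩ := D.guess _ F (fun κ => Ioo (κ.2.1.1 : ℝ) (κ.2.1.2 : ℝ))
    (fun κ => isOpen_Ioo) (fun κ => nonempty_Ioo.2 (by exact_mod_cast κ.2.2))
  have h00 : ((0:ℝ), (0:ℝ)).2 ∈ H := Or.inl le_rfl
  obtain ⟨V, hV, hxV⟩ : ∃ V ∈ G κ.1, Pt.bd α (0, 0) h00 ∈ V := by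
    have : Pt.bd α (0, 0) h00 ∈ ⋃₀ G κ.1 := by rw [hG2]; trivial
    exact this
  have hopen : IsOpen (chart D α ⁻¹' V) := (hG1 _ V hV).preimage (continuous_chart α)
  have h0 : ((0:ℝ), (0:ℝ)) ∈ chart D α ⁻¹' V := by
    rw [mem_preimage, chart_H h00]; exact hxV
  obtain ⟨r, hr, hball⟩ := Metric.isOpen_iff.1 hopen _ h0
  obtain ⟨n, hn⟩ := exists_nat_gt (1 / r)
  rw [div_lt_iff₀ hr] at hn
  have hn2 : |hOf n 0| < r := by
    rw [hOf_zero, abs_of_pos (by positivity), inv_lt_comm₀ (by positivity) hr]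
    rw [← one_div, div_lt_iff₀ hr]
    nlinarith
  -- the open interval of first coordinates
  let O : Set ℝ := (fun s => D.c α + eps n * phi s) '' Ioo (-r) r
  have hOopen : IsOpen O := by
    have h1 : O = {u | |(u - D.c α) / eps n| < 1} ∩ (fun u => psi ((u - D.c α) / eps n)) ⁻¹' Ioo (-r) r := by
      have he := eps_pos n
      ext u
      constructor
      · rintro ⟨s, hs, rfl⟩
        have h2 : (D.c α + eps n * phi s - D.c α) / eps n = phi s := by
          field_simp; ring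
        refine ⟨?_, ?_⟩
        · simp only [mem_ofPred_eq]
          rw [h2]; exact abs_phi_lt s
        · simp only [mem_preimage]
          rw [h2, psi_phi]; exact hs
      · rintro ⟨h1, h2⟩
        refine ⟨_, h2, ?_⟩
        simp only [mem_ofPred_eq] at h1
        simp only
        rw [phi_psi h1]
        field_simp; ring
    rw [h1]
    refine ContinuousOn.isOpen_inter_preimage ?_ (isOpen_lt (by fun_prop) (by fun_prop)) isOpen_Ioo
    exact continuousOn_psi.comp (by fun_prop) (fun u hu => hu)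
  have hcO : D.c α ∈ O := ⟨0, ⟨by linarith, hr⟩, by simp [phi]⟩
  have hmem : D.c α ∈ closure (C (D.a α n) κ.1) := by
    have := hF (D.a α n)
    rw [hα1 n] at this
    exact this hα2
  obtain ⟨u, hu1, hu2⟩ := mem_closure_iff.1 hmem O hOopen hcO
  obtain ⟨s, hs, rfl⟩ := hu1
  have hsV : chart D α (s, hOf n 0) ∈ V := by
    apply hball
    rw [Metric.mem_ball, Prod.dist_eq, max_lt_iff]
    constructor
    · simp only [Real.dist_eq, sub_zero]
      rw [abs_lt]; exact hs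
    · simp only [Real.dist_eq, sub_zero]
      exact hn2
  have hpt : chart D α (s, hOf n 0) = emb D (D.a α n) (D.c α + eps n * phi s, 0) := by
    rw [chart_S (n := n) (hOf_mem n 0)]
    congr 1
    simp only [tOf_hOf]
    exact G_zero _ _ _
  rw [hpt] at hsV
  obtain ⟨z, hz⟩ := hu2 V hV hsV hxV
  unfold emb at hz
  cases hz

/-- A space covered by open copies of the plane is a manifold. -/
theorem charted {M : Type} [TopologicalSpace M]
    (h : ∀ x : M, ∃ e : ℝ × ℝ → M, IsOpenEmbedding e ∧ x ∈ range e) :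
    Nonempty (ChartedSpace (EuclideanSpace ℝ (Fin 2)) M) := by
  choose e he hx using h
  let g : EuclideanSpace ℝ (Fin 2) ≃ₜ ℝ × ℝ :=
    (EuclideanSpace.equiv (Fin 2) ℝ).toHomeomorph.trans Homeomorph.finTwoArrow
  have hg : ∀ x, IsOpenEmbedding (e x ∘ g) := fun x => (he x).comp g.isOpenEmbedding
  let φ : M → OpenPartialHomeomorph M (EuclideanSpace ℝ (Fin 2)) := fun x =>
    ((hg x).toOpenPartialHomeomorph (e x ∘ g)).symm
  refine ⟨{ atlas := range φ, chartAt := φ, mem_chart_source := ?_, chart_mem_atlas := fun x => ⟨x, rfl⟩ }⟩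
  intro x
  simp only [φ, OpenPartialHomeomorph.symm_source, IsOpenEmbedding.toOpenPartialHomeomorph_target]
  obtain ⟨p, hp⟩ := hx x
  exact ⟨g.symm p, by simp [hp]⟩

theorem charted_Pt : Nonempty (ChartedSpace (EuclideanSpace ℝ (Fin 2)) (Pt D)) := by
  refine charted fun x => ?_
  rcases covering x with ⟨i, p, rfl⟩ | ⟨α, p, hp, rfl⟩
  · exact ⟨_, isOpenEmbedding_emb i, ⟨p, rfl⟩⟩
  · exact ⟨_, isOpenEmbedding_chart α, ⟨p, chart_H hp⟩⟩

end Pool.Agent.W639
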