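import Pool.Agent.W894.HT.Defs

/-! Project HT (helper894), part CHAIN. -/

set_option autoImplicit false

namespace Pool.Agent.W639.HTChain

open Pool.Agent.W894.HT

theorem main : S_CHAIN := by
  classical
  intro A _ F l
  induction l with
  | nil =>
    intro x κ _
    rw [if_pos (List.isChain_singleton x)]
    rfl
  | cons v l ih =>
    intro x κ hnd
    have hnd' : (v :: l).Nodup := (List.nodup_cons.1 hnd).2
    have hxv : x ≠ v := by
      intro h
      exact (List.nodup_cons.1 hnd).1 (by rw [h]; exact List.mem_cons_self)
    show (if x < v then Rr (phi F) (fun _ _ => (1 : A)) v l (fun z => κ z + itv x v z) else 0) +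
      phi F x v * Rr (phi F) (fun _ _ => (1 : A)) v l κ = _
    rw [ih v _ hnd', ih v _ hnd']
    by_cases hc : (v :: l).IsChain (arc F)
    · rw [if_pos hc]
      have hiff : (x :: v :: l).IsChain (arc F) ↔ arc F x v := by
        rw [List.isChain_cons_cons]
        exact ⟨fun h => h.1, fun h => ⟨h, hc⟩⟩
      rcases lt_or_gt_of_ne hxv with h | h
      · cases hF : F x v
        · rw [if_pos h, if_pos (hiff.2 (Or.inl ⟨h, hF⟩))]
          simp [phi, hF]
        · rw [if_pos h, if_neg (fun h1 => ?_)]
          · simp [phi, hF, h]
          · rcases hiff.1 h1 with h2 | h2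
            · rw [hF] at h2
              exact Bool.noConfusion h2.2
            · omega
      · have h' : ¬ x < v := by omega
        cases hF : F x v
        · rw [if_neg h', if_neg (fun h1 => ?_)]
          · simp [phi, hF]
          · rcases hiff.1 h1 with h2 | h2
            · omega
            · rw [hF] at h2
              exact Bool.noConfusion h2.2
        · rw [if_neg h', if_pos (hiff.2 (Or.inr ⟨h, hF⟩))]
          simp [phi, hF, h']
    · rw [if_neg hc, if_neg (fun h => hc (List.isChain_cons_cons.1 h).2)]
      simp

end Pool.Agent.W639.HTChain
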