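import Mathlib

/-!
# Thin strips in the plane
-/

set_option autoImplicit false

namespace Pool.Agent.W639

open Set Topology

/-- A homeomorphism of the line onto `(-1,1)`. -/
noncomputable def phi (u : ℝ) : ℝ := u / (1 + |u|)

/-- Its inverse. -/
noncomputable def psi (v : ℝ) : ℝ := v / (1 - |v|)

theorem continuous_phi : Continuous phi := by
  unfold phi
  refine continuous_id.div (continuous_const.add continuous_abs) (fun x => ?_)
  have := abs_nonneg x
  positivity

theorem abs_phi (u : ℝ) : |phi u| = |u| / (1 + |u|) := by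
  have h := abs_nonneg u
  unfold phi
  rw [abs_div, abs_of_pos (show (0:ℝ) < 1 + |u| by linarith)]

theorem abs_phi_lt (u : ℝ) : |phi u| < 1 := by
  have h := abs_nonneg u
  rw [abs_phi, div_lt_one (by linarith)]
  linarith

theorem phi_mem (u : ℝ) : -1 < phi u ∧ phi u < 1 := abs_lt.1 (abs_phi_lt u)

theorem psi_phi (u : ℝ) : psi (phi u) = u := by
  have h := abs_nonneg u
  unfold psi
  rw [abs_phi]
  unfold phi
  have h1 : (1 + |u|) ≠ 0 := by linarith
  have h2 : 1 - |u| / (1 + |u|) = 1 / (1 + |u|) := by field_simp; ring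
  rw [h2]
  field_simp

theorem phi_psi {v : ℝ} (hv : |v| < 1) : phi (psi v) = v := by
  have h1 : 0 < 1 - |v| := by linarith
  unfold phi psi
  rw [abs_div, abs_of_pos h1]
  have h2 : 1 + |v| / (1 - |v|) = 1 / (1 - |v|) := by field_simp; ring
  rw [h2]
  field_simp

theorem phi_injective : Function.Injective phi := fun u v h => by
  rw [← psi_phi u, ← psi_phi v, h]

theorem continuousOn_psi : ContinuousOn psi {v | |v| < 1} := by
  unfold psi
  refine ContinuousOn.div (by fun_prop) (by fun_prop) ?_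
  intro v hv
  have hv' : |v| < 1 := hv
  linarith

theorem phi_lip (u v : ℝ) : |phi u - phi v| ≤ 2 * |u - v| := by
  have hu := abs_nonneg u
  have hv := abs_nonneg v
  have h1 : phi u - phi v = (u - v + (|v| * (u - v) + v * (|v| - |u|))) / ((1 + |u|) * (1 + |v|)) := by
    unfold phi
    rw [div_sub_div _ _ (by linarith) (by linarith)]
    congr 1
    ring
  have h2 : |(|v| - |u|)| ≤ |u - v| := by
    have := abs_abs_sub_abs_le v u
    rw [abs_sub_comm v u] at this
    exact this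
  have h3 : |u - v + (|v| * (u - v) + v * (|v| - |u|))| ≤ (1 + 2 * |v|) * |u - v| := by
    calc |u - v + (|v| * (u - v) + v * (|v| - |u|))|
        ≤ |u - v| + |(|v| * (u - v) + v * (|v| - |u|))| := abs_add_le _ _
      _ ≤ |u - v| + (|(|v| * (u - v))| + |v * (|v| - |u|)|) := by
          gcongr
          exact abs_add_le _ _
      _ = |u - v| + (|v| * |u - v| + |v| * |(|v| - |u|)|) := by
          rw [abs_mul, abs_mul, abs_abs]
      _ ≤ |u - v| + (|v| * |u - v| + |v| * |u - v|) := by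
          gcongr
      _ = (1 + 2 * |v|) * |u - v| := by ring
  rw [h1, abs_div, abs_of_pos (show (0:ℝ) < (1 + |u|) * (1 + |v|) by positivity),
    div_le_iff₀ (by positivity)]
  refine h3.trans ?_
  have h4 := abs_nonneg (u - v)
  nlinarith [mul_nonneg hu h4, mul_nonneg hv h4, mul_nonneg (mul_nonneg hu hv) h4]

/-! ### Heights -/

/-- The `n`-th interval of heights `(1/(n+1), 1/n)`. -/
def S (n : ℕ) : Set ℝ := {h | (n : ℝ) * h < 1 ∧ 1 < ((n : ℝ) + 1) * h}

/-- The remaining heights. -/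
def H : Set ℝ := {h | h ≤ 0 ∨ ∃ n : ℕ, ((n : ℝ) + 1) * h = 1}

theorem isOpen_S (n : ℕ) : IsOpen (S n) := by
  have h1 : IsOpen {h : ℝ | (n : ℝ) * h < 1} := isOpen_lt (by fun_prop) (by fun_prop)
  have h2 : IsOpen {h : ℝ | 1 < ((n : ℝ) + 1) * h} := isOpen_lt (by fun_prop) (by fun_prop)
  exact h1.inter h2

theorem S_pos {n : ℕ} {h : ℝ} (hh : h ∈ S n) : 0 < h := by
  by_contra hneg
  rw [not_lt] at hneg
  have h1 : ((n : ℝ) + 1) * h ≤ 0 := mul_nonpos_of_nonneg_of_nonpos (by positivity) hneg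
  linarith [hh.2]

theorem S_not_H {n : ℕ} {h : ℝ} (hh : h ∈ S n) : h ∉ H := by
  have hpos := S_pos hh
  rintro (h1 | ⟨m, hm⟩)
  · linarith
  · have h1 : (n : ℝ) < (m : ℝ) + 1 := by
      by_contra hcon
      rw [not_lt] at hcon
      nlinarith [hh.1]
    have h2 : (m : ℝ) + 1 < (n : ℝ) + 1 := by
      by_contra hcon
      rw [not_lt] at hcon
      nlinarith [hh.2]
    have h3 : n < m + 1 := by exact_mod_cast h1
    have h4 : m < n := by
      have : (m : ℝ) < n := by linarith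
      exact_mod_cast this
    omega

theorem S_unique {n m : ℕ} {h : ℝ} (h1 : h ∈ S n) (h2 : h ∈ S m) : n = m := by
  have hpos := S_pos h1
  have key : ∀ {n m : ℕ}, h ∈ S n → h ∈ S m → n ≤ m := by
    intro n m h1 h2
    by_contra hcon
    have h3 : (m : ℝ) + 1 ≤ n := by exact_mod_cast (not_le.1 hcon)
    have h4 := h1.1
    have h5 := h2.2
    nlinarith
  exact le_antisymm (key h1 h2) (key h2 h1)

theorem exists_S {h : ℝ} (hh : h ∉ H) : ∃ n : ℕ, h ∈ S n := by
  have hpos : 0 < h := by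
    by_contra hneg
    exact hh (Or.inl (not_lt.1 hneg))
  refine ⟨⌊h⁻¹⌋₊, ?_, ?_⟩
  · have h1 : (⌊h⁻¹⌋₊ : ℝ) ≤ h⁻¹ := Nat.floor_le (by positivity)
    have h2 : (⌊h⁻¹⌋₊ : ℝ) * h ≤ 1 := by
      calc (⌊h⁻¹⌋₊ : ℝ) * h ≤ h⁻¹ * h := by gcongr
        _ = 1 := inv_mul_cancel₀ hpos.ne'
    refine lt_of_le_of_ne h2 ?_
    intro h3
    rcases Nat.eq_zero_or_pos ⌊h⁻¹⌋₊ with h4 | h4
    · rw [h4] at h3; norm_num at h3
    · apply hh
      refine Or.inr ⟨⌊h⁻¹⌋₊ - 1, ?_⟩
      have : ((⌊h⁻¹⌋₊ - 1 : ℕ) : ℝ) = (⌊h⁻¹⌋₊ : ℝ) - 1 := by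
        rw [Nat.cast_sub h4]; norm_num
      rw [this]
      linarith
  · have h1 : h⁻¹ < (⌊h⁻¹⌋₊ : ℝ) + 1 := Nat.lt_floor_add_one _
    calc 1 = h⁻¹ * h := (inv_mul_cancel₀ hpos.ne').symm
      _ < ((⌊h⁻¹⌋₊ : ℝ) + 1) * h := by gcongr

/-- The relative height in the `n`-th interval. -/
noncomputable def tOf (n : ℕ) (h : ℝ) : ℝ := psi (2 * (h⁻¹ - n) - 1)

/-- The inverse of `tOf n`. -/
noncomputable def hOf (n : ℕ) (t : ℝ) : ℝ := ((n : ℝ) + (1 + phi t) / 2)⁻¹

theorem inv_mem {n : ℕ} {h : ℝ} (hh : h ∈ S n) : (n : ℝ) < h⁻¹ ∧ h⁻¹ < (n : ℝ) + 1 := by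
  have hpos := S_pos hh
  have hne := hpos.ne'
  have h3 : h⁻¹ * h = 1 := inv_mul_cancel₀ hne
  constructor
  · by_contra hcon
    rw [not_lt] at hcon
    have := mul_le_mul_of_nonneg_right hcon hpos.le
    linarith [hh.1]
  · by_contra hcon
    rw [not_lt] at hcon
    have := mul_le_mul_of_nonneg_right hcon hpos.le
    linarith [hh.2]

theorem mem_S_of_inv {n : ℕ} {w : ℝ} (h1 : (n : ℝ) < w) (h2 : w < (n : ℝ) + 1) : w⁻¹ ∈ S n := by
  have hpos : 0 < w := lt_of_le_of_lt (Nat.cast_nonneg n) h1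
  have h3 : w * w⁻¹ = 1 := mul_inv_cancel₀ hpos.ne'
  have h4 : 0 < w⁻¹ := inv_pos.2 hpos
  constructor
  · calc (n : ℝ) * w⁻¹ < w * w⁻¹ := by gcongr
      _ = 1 := h3
  · calc 1 = w * w⁻¹ := h3.symm
      _ < ((n : ℝ) + 1) * w⁻¹ := by gcongr

theorem frac_mem {n : ℕ} {h : ℝ} (hh : h ∈ S n) : |2 * (h⁻¹ - n) - 1| < 1 := by
  have h1 := inv_mem hh
  rw [abs_lt]
  constructor <;> linarith [h1.1, h1.2]

theorem phi_tOf {n : ℕ} {h : ℝ} (hh : h ∈ S n) : phi (tOf n h) = 2 * (h⁻¹ - n) - 1 :=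
  phi_psi (frac_mem hh)

theorem hOf_mem (n : ℕ) (t : ℝ) : hOf n t ∈ S n := by
  have h := phi_mem t
  exact mem_S_of_inv (by linarith [h.1]) (by linarith [h.2])

theorem hOf_tOf {n : ℕ} {h : ℝ} (hh : h ∈ S n) : hOf n (tOf n h) = h := by
  unfold hOf
  rw [phi_tOf hh]
  have : (n : ℝ) + (1 + (2 * (h⁻¹ - n) - 1)) / 2 = h⁻¹ := by ring
  rw [this, inv_inv]

theorem tOf_hOf (n : ℕ) (t : ℝ) : tOf n (hOf n t) = t := by
  unfold tOf hOf
  rw [inv_inv]
  have : 2 * ((n : ℝ) + (1 + phi t) / 2 - n) - 1 = phi t := by ring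
  rw [this, psi_phi]

theorem continuousOn_tOf (n : ℕ) : ContinuousOn (tOf n) (S n) := by
  unfold tOf
  refine continuousOn_psi.comp ?_ (fun h hh => frac_mem hh)
  refine ContinuousOn.sub (ContinuousOn.mul continuousOn_const (ContinuousOn.sub ?_ continuousOn_const)) continuousOn_const
  exact continuousOn_id.inv₀ (fun h hh => (S_pos hh).ne')

theorem continuous_hOf (n : ℕ) : Continuous (hOf n) := by
  unfold hOf
  refine Continuous.inv₀ ?_ (fun t => ?_)
  · exact continuous_const.add ((continuous_const.add continuous_phi).div_const _)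
  · have h := phi_mem t
    have : (0 : ℝ) ≤ n := Nat.cast_nonneg n
    have : 0 < (n : ℝ) + (1 + phi t) / 2 := by linarith [h.1]
    exact this.ne'

/-! ### The strips -/

/-- The width. -/
noncomputable def eps (n : ℕ) : ℝ := 1 / ((n : ℝ) + 1) ^ 2

theorem eps_pos (n : ℕ) : 0 < eps n := by unfold eps; positivity

theorem eps_le (n : ℕ) : eps n ≤ 1 := by
  unfold eps
  rw [div_le_one (by positivity)]
  have : (0 : ℝ) ≤ n := Nat.cast_nonneg n
  nlinarith

/-- The centre line. -/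
noncomputable def cen (n : ℕ) (c t : ℝ) : ℝ := c + phi t / ((n : ℝ) + 1)

/-- The map placing a strip. -/
noncomputable def G (n : ℕ) (c : ℝ) (p : ℝ × ℝ) : ℝ × ℝ :=
  (cen n c p.2 + eps n * phi p.1 / (1 + |p.2|), p.2)

/-- The strip. -/
def K (n : ℕ) (c : ℝ) : Set (ℝ × ℝ) := {q | |q.1 - cen n c q.2| * (1 + |q.2|) < eps n}

/-- The inverse of `G`. -/
noncomputable def Ginv (n : ℕ) (c : ℝ) (q : ℝ × ℝ) : ℝ × ℝ :=
  (psi ((q.1 - cen n c q.2) * (1 + |q.2|) / eps n), q.2)

theorem continuous_cen (n : ℕ) (c : ℝ) : Continuous (cen n c) :=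
  continuous_const.add (continuous_phi.div_const _)

theorem continuous_G (n : ℕ) (c : ℝ) : Continuous (G n c) := by
  unfold G
  refine Continuous.prodMk ?_ continuous_snd
  refine ((continuous_cen n c).comp continuous_snd).add ?_
  refine (continuous_const.mul (continuous_phi.comp continuous_fst)).div ?_ ?_
  · exact continuous_const.add (continuous_abs.comp continuous_snd)
  · intro p
    have := abs_nonneg p.2
    positivity

theorem G_mem (n : ℕ) (c : ℝ) (p : ℝ × ℝ) : G n c p ∈ K n c := by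
  have h1 : 0 < 1 + |p.2| := by have := abs_nonneg p.2; positivity
  have h2 := abs_phi_lt p.1
  have h3 := eps_pos n
  change |cen n c p.2 + eps n * phi p.1 / (1 + |p.2|) - cen n c p.2| * (1 + |p.2|) < eps n
  rw [add_sub_cancel_left, abs_div, abs_of_pos h1, div_mul_cancel₀ _ h1.ne', abs_mul, abs_of_pos h3]
  calc eps n * |phi p.1| < eps n * 1 := by gcongr
    _ = eps n := mul_one _

theorem Ginv_G (n : ℕ) (c : ℝ) (p : ℝ × ℝ) : Ginv n c (G n c p) = p := by
  have h1 : 0 < 1 + |p.2| := by have := abs_nonneg p.2; positivity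
  have h3 := eps_pos n
  unfold Ginv G
  ext
  · simp only
    rw [add_sub_cancel_left, div_mul_cancel₀ _ h1.ne', mul_div_cancel_left₀ _ h3.ne', psi_phi]
  · rfl

theorem frac_K {n : ℕ} {c : ℝ} {q : ℝ × ℝ} (hq : q ∈ K n c) :
    |(q.1 - cen n c q.2) * (1 + |q.2|) / eps n| < 1 := by
  have h1 : 0 < 1 + |q.2| := by have := abs_nonneg q.2; positivity
  have h3 := eps_pos n
  rw [abs_div, abs_mul, abs_of_pos h1, abs_of_pos h3, div_lt_one h3]
  exact hq

theorem G_Ginv {n : ℕ} {c : ℝ} {q : ℝ × ℝ} (hq : q ∈ K n c) : G n c (Ginv n c q) = q := by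
  have h1 : 0 < 1 + |q.2| := by have := abs_nonneg q.2; positivity
  have h3 := eps_pos n
  unfold Ginv G
  ext
  · simp only
    rw [phi_psi (frac_K hq), mul_div_cancel₀ _ h3.ne', mul_div_assoc, div_self h1.ne', mul_one]
    ring
  · rfl

theorem G_injective (n : ℕ) (c : ℝ) : Function.Injective (G n c) := fun p q h => by
  rw [← Ginv_G n c p, ← Ginv_G n c q, h]

theorem range_G (n : ℕ) (c : ℝ) : range (G n c) = K n c := by
  ext q
  constructor
  · rintro ⟨p, rfl⟩; exact G_mem n c p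
  · intro hq; exact ⟨_, G_Ginv hq⟩

theorem isOpen_K (n : ℕ) (c : ℝ) : IsOpen (K n c) := by
  refine isOpen_lt ?_ continuous_const
  refine Continuous.mul ?_ (continuous_const.add (continuous_abs.comp continuous_snd))
  exact continuous_abs.comp (continuous_fst.sub ((continuous_cen n c).comp continuous_snd))

theorem continuousOn_Ginv (n : ℕ) (c : ℝ) : ContinuousOn (Ginv n c) (K n c) := by
  unfold Ginv
  refine ContinuousOn.prodMk ?_ continuousOn_snd
  refine continuousOn_psi.comp ?_ (fun q hq => frac_K hq)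
  refine Continuous.continuousOn ?_
  refine Continuous.div_const ?_ _
  refine Continuous.mul ?_ (continuous_const.add (continuous_abs.comp continuous_snd))
  exact continuous_fst.sub ((continuous_cen n c).comp continuous_snd)

theorem isOpenMap_G (n : ℕ) (c : ℝ) : IsOpenMap (G n c) := by
  intro U hU
  have h1 : G n c '' U = K n c ∩ (Ginv n c) ⁻¹' U := by
    ext q
    constructor
    · rintro ⟨p, hp, rfl⟩
      refine ⟨G_mem n c p, ?_⟩
      rw [Set.mem_preimage, Ginv_G]; exact hp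
    · rintro ⟨h1, h2⟩
      exact ⟨_, h2, G_Ginv h1⟩
  rw [h1]
  exact (continuousOn_Ginv n c).isOpen_inter_preimage (isOpen_K n c) hU

theorem K_le {n : ℕ} {c : ℝ} {q : ℝ × ℝ} (hq : q ∈ K n c) :
    |q.1 - cen n c q.2| ≤ eps n / (1 + |q.2|) := by
  have h1 : 0 < 1 + |q.2| := by have := abs_nonneg q.2; positivity
  rw [le_div_iff₀ h1]
  exact le_of_lt hq

theorem K_lt {n : ℕ} {c : ℝ} {q : ℝ × ℝ} (hq : q ∈ K n c) :
    |q.1 - cen n c q.2| < eps n := by
  have h1 : 0 ≤ |q.2| := abs_nonneg q.2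
  have h2 : 0 ≤ |q.1 - cen n c q.2| := abs_nonneg _
  have h3 : |q.1 - cen n c q.2| * (1 + |q.2|) < eps n := hq
  nlinarith

/-- Two distinct points lie together only in finitely many strips. -/
theorem slope {y z : ℝ × ℝ} (hne : y ≠ z) : ∃ N : ℕ, ∀ n ≥ N, ∀ c, y ∈ K n c → z ∈ K n c → False := by
  have key : ∀ (n : ℕ) (c : ℝ), y ∈ K n c → z ∈ K n c →
      |(y.1 - z.1) - (phi y.2 - phi z.2) / ((n : ℝ) + 1)| < 2 * eps n := by
    intro n c hy hz
    have h1 := K_lt hy
    have h2 := K_lt hz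
    unfold cen at h1 h2
    rw [abs_lt] at h1 h2 ⊢
    rw [sub_div]
    constructor <;> linarith [h1.1, h1.2, h2.1, h2.2]
  by_cases hx : y.1 = z.1
  · have hphi : 0 < |phi y.2 - phi z.2| := by
      rw [abs_pos, sub_ne_zero]
      intro h
      exact hne (Prod.ext hx (phi_injective h))
    obtain ⟨N, hN⟩ := exists_nat_gt (2 / |phi y.2 - phi z.2|)
    refine ⟨N, fun n hn c hy hz => ?_⟩
    have h1 := key n c hy hz
    rw [hx, sub_self, zero_sub, abs_neg, abs_div, abs_of_pos (show (0:ℝ) < (n : ℝ) + 1 by positivity)] at h1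
    have h2 : (2 : ℝ) * eps n = 2 / ((n : ℝ) + 1) / ((n : ℝ) + 1) := by
      unfold eps; field_simp
    rw [h2, div_lt_div_iff_of_pos_right (by positivity), lt_div_iff₀ (by positivity)] at h1
    rw [div_lt_iff₀ hphi] at hN
    have h3 : (N : ℝ) ≤ n := by exact_mod_cast hn
    nlinarith
  · have hx' : 0 < |y.1 - z.1| := by
      rw [abs_pos, sub_ne_zero]; exact hx
    obtain ⟨N, hN⟩ := exists_nat_gt (4 / |y.1 - z.1|)
    refine ⟨N, fun n hn c hy hz => ?_⟩
    have h1 := key n c hy hz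
    have hn1 : (0:ℝ) < (n : ℝ) + 1 := by positivity
    have h2 : |(phi y.2 - phi z.2) / ((n : ℝ) + 1)| ≤ 2 / ((n : ℝ) + 1) := by
      rw [abs_div, abs_of_pos hn1]
      gcongr
      have := phi_mem y.2
      have := phi_mem z.2
      rw [abs_le]; constructor <;> linarith [(phi_mem y.2).1, (phi_mem y.2).2, (phi_mem z.2).1, (phi_mem z.2).2]
    have h3 : (2 : ℝ) * eps n ≤ 2 / ((n : ℝ) + 1) := by
      unfold eps
      rw [mul_one_div]
      gcongr
      nlinarith
    have h4 : |y.1 - z.1| < 4 / ((n : ℝ) + 1) := by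
      have h5 : |y.1 - z.1| ≤ |(y.1 - z.1) - (phi y.2 - phi z.2) / ((n : ℝ) + 1)|
          + |(phi y.2 - phi z.2) / ((n : ℝ) + 1)| := by
        have := abs_add_le ((y.1 - z.1) - (phi y.2 - phi z.2) / ((n : ℝ) + 1))
          ((phi y.2 - phi z.2) / ((n : ℝ) + 1))
        rwa [sub_add_cancel] at this
      have h6 : (4 : ℝ) / ((n : ℝ) + 1) = 2 / ((n : ℝ) + 1) + 2 / ((n : ℝ) + 1) := by ring
      linarith
    rw [lt_div_iff₀ hn1] at h4
    rw [div_lt_iff₀ hx'] at hN
    have h7 : (N : ℝ) ≤ n := by exact_mod_cast hn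
    nlinarith

/-- Strips with independent centres are disjoint far away. -/
theorem far {c c' : ℝ} (hc : ∀ q : ℚ, c - c' ≠ q) (n m : ℕ) :
    ∃ R : ℝ, 0 < R ∧ ∀ q : ℝ × ℝ, R ≤ |q.2| → q ∈ K n c → q ∈ K m c' → False := by
  set δ : ℝ := 1 / ((n : ℝ) + 1) - 1 / ((m : ℝ) + 1) with hδ
  have h1 : c - c' + δ ≠ 0 := by
    intro h
    apply hc (1 / ((m : ℚ) + 1) - 1 / ((n : ℚ) + 1))
    push_cast
    linarith
  have h2 : c - c' - δ ≠ 0 := by
    intro h
    apply hc (1 / ((n : ℚ) + 1) - 1 / ((m : ℚ) + 1))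
    push_cast
    linarith
  have hδ1 : |δ| ≤ 1 := by
    have h3 : (0:ℝ) < 1 / ((n : ℝ) + 1) := by positivity
    have h4 : (0:ℝ) < 1 / ((m : ℝ) + 1) := by positivity
    have h5 : (1:ℝ) / ((n : ℝ) + 1) ≤ 1 := by
      rw [div_le_one (by positivity)]; have : (0:ℝ) ≤ n := Nat.cast_nonneg n; linarith
    have h6 : (1:ℝ) / ((m : ℝ) + 1) ≤ 1 := by
      rw [div_le_one (by positivity)]; have : (0:ℝ) ≤ m := Nat.cast_nonneg m; linarith
    rw [hδ, abs_le]; constructor <;> linarith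
  have hd : 0 < min |c - c' + δ| |c - c' - δ| := lt_min (abs_pos.2 h1) (abs_pos.2 h2)
  set d := min |c - c' + δ| |c - c' - δ| with hdd
  refine ⟨3 / d, by positivity, ?_⟩
  intro q hq hn hm
  have hpos : 0 < 1 + |q.2| := by have := abs_nonneg q.2; positivity
  have hn' := K_le hn
  have hm' := K_le hm
  have hA : |c - c' + phi q.2 * δ| ≤ 2 / (1 + |q.2|) := by
    have h3 : eps n / (1 + |q.2|) ≤ 1 / (1 + |q.2|) := by
      have := eps_le n; gcongr
    have h4 : eps m / (1 + |q.2|) ≤ 1 / (1 + |q.2|) := by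
      have := eps_le m; gcongr
    have h5 : c - c' + phi q.2 * δ = (q.1 - cen m c' q.2) - (q.1 - cen n c q.2) := by
      unfold cen; rw [hδ]; ring
    have h6 : (2:ℝ) / (1 + |q.2|) = 1 / (1 + |q.2|) + 1 / (1 + |q.2|) := by ring
    rw [h5, h6]
    rw [abs_le] at hn' hm' ⊢
    constructor <;> linarith [hn'.1, hn'.2, hm'.1, hm'.2]
  have hB : d ≤ |c - c' + phi q.2 * δ| + 1 / (1 + |q.2|) := by
    rcases le_total 0 q.2 with h0 | h0
    · have h3 : phi q.2 = 1 - 1 / (1 + |q.2|) := by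
        unfold phi; rw [abs_of_nonneg h0]; field_simp; ring
      have h4 : c - c' + δ = (c - c' + phi q.2 * δ) + δ * (1 / (1 + |q.2|)) := by
        rw [h3]; ring
      calc d ≤ |c - c' + δ| := min_le_left _ _
        _ ≤ |c - c' + phi q.2 * δ| + |δ * (1 / (1 + |q.2|))| := by
            rw [h4]; exact abs_add_le _ _
        _ ≤ |c - c' + phi q.2 * δ| + 1 / (1 + |q.2|) := by
            gcongr
            rw [abs_mul, abs_of_pos (show (0:ℝ) < 1 / (1 + |q.2|) by positivity)]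
            have : (0:ℝ) < 1 / (1 + |q.2|) := by positivity
            nlinarith [abs_nonneg δ]
    · have h3 : phi q.2 = -1 + 1 / (1 + |q.2|) := by
        unfold phi; rw [abs_of_nonpos h0]; 
        have : 1 + -q.2 ≠ 0 := by linarith
        field_simp; ring
      have h4 : c - c' - δ = (c - c' + phi q.2 * δ) + (-δ) * (1 / (1 + |q.2|)) := by
        rw [h3]; ring
      calc d ≤ |c - c' - δ| := min_le_right _ _
        _ ≤ |c - c' + phi q.2 * δ| + |(-δ) * (1 / (1 + |q.2|))| := by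
            rw [h4]; exact abs_add_le _ _
        _ ≤ |c - c' + phi q.2 * δ| + 1 / (1 + |q.2|) := by
            gcongr
            rw [abs_mul, abs_neg, abs_of_pos (show (0:ℝ) < 1 / (1 + |q.2|) by positivity)]
            have : (0:ℝ) < 1 / (1 + |q.2|) := by positivity
            nlinarith [abs_nonneg δ]
  have hC : d ≤ 3 / (1 + |q.2|) := by
    have : (3:ℝ) / (1 + |q.2|) = 2 / (1 + |q.2|) + 1 / (1 + |q.2|) := by ring
    linarith
  rw [le_div_iff₀ hpos] at hC
  rw [div_le_iff₀ hd] at hq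
  have hE : d * (1 + |q.2|) = d + |q.2| * d := by ring
  linarith

end Pool.Agent.W639
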