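import Pool.Agent.W639.Seqs
import Pool.Agent.W639.Strip

/-!
# The manifold glued from planes
-/

set_option autoImplicit false

namespace Pool.Agent.W639

open Set Topology

variable (D : Data)

/-- The points: planes indexed by the reals, and the remaining parts of the planes indexed by `L`. -/
inductive Pt : Type
  | base (i : ℝ) (p : ℝ × ℝ) : Pt
  | bd (α : D.L) (p : ℝ × ℝ) (h : p.2 ∈ H) : Pt

/-- The plane with index `i`. -/
def emb (i : ℝ) (p : ℝ × ℝ) : Pt D := Pt.base i p

open Classical in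
/-- The plane with index `α`. -/
noncomputable def chart (α : D.L) (p : ℝ × ℝ) : Pt D :=
  if h : p.2 ∈ H then Pt.bd α p h else
    emb D (D.a α (exists_S h).choose)
      (G (exists_S h).choose (D.c α) (p.1, tOf (exists_S h).choose p.2))

variable {D}

theorem chart_H {α : D.L} {p : ℝ × ℝ} (h : p.2 ∈ H) :
    chart D α p = Pt.bd α p h := by
  unfold chart; rw [dif_pos h]

theorem chart_S {α : D.L} {p : ℝ × ℝ} {n : ℕ} (h : p.2 ∈ S n) :
    chart D α p = emb D (D.a α n) (G n (D.c α) (p.1, tOf n p.2)) := by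
  have h1 := S_not_H h
  unfold chart
  rw [dif_neg h1]
  have h2 : (exists_S h1).choose = n := S_unique (exists_S h1).choose_spec h
  rw [h2]

theorem emb_inj {i j : ℝ} {p q : ℝ × ℝ} (h : emb D i p = emb D j q) : i = j ∧ p = q := by
  unfold emb at h
  injection h with h1 h2
  exact ⟨h1, h2⟩

theorem emb_injective (i : ℝ) : Function.Injective (emb D i) := fun _ _ h => (emb_inj h).2

/-- If a point of the plane `α` is in the plane `i`. -/
theorem chart_eq_emb {α : D.L} {p : ℝ × ℝ} {i : ℝ} {q : ℝ × ℝ} (h : chart D α p = emb D i q) :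
    ∃ n, p.2 ∈ S n ∧ D.a α n = i ∧ q = G n (D.c α) (p.1, tOf n p.2) := by
  by_cases hp : p.2 ∈ H
  · rw [chart_H hp] at h; unfold emb at h; cases h
  · obtain ⟨n, hn⟩ := exists_S hp
    rw [chart_S hn] at h
    obtain ⟨h1, h2⟩ := emb_inj h
    exact ⟨n, hn, h1, h2.symm⟩

theorem chart_eq_inr {α β : D.L} {p q : ℝ × ℝ} {hq : q.2 ∈ H}
    (h : chart D α p = Pt.bd β q hq) : α = β ∧ p = q := by
  by_cases hp : p.2 ∈ H
  · rw [chart_H hp] at h
    injection h with h1 h2
    exact ⟨h1, h2⟩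
  · obtain ⟨n, hn⟩ := exists_S hp
    rw [chart_S hn] at h; unfold emb at h; cases h

theorem chart_injective (α : D.L) : Function.Injective (chart D α) := by
  intro p q h
  by_cases hq : q.2 ∈ H
  · rw [chart_H hq] at h
    exact (chart_eq_inr h).2
  · obtain ⟨n, hn⟩ := exists_S hq
    rw [chart_S hn] at h
    obtain ⟨m, hm, h1, h2⟩ := chart_eq_emb h
    have h3 : m = n := D.a_inj α h1
    subst h3
    have h4 := G_injective _ _ h2
    have h5 := congrArg Prod.fst h4
    have h6 := congrArg Prod.snd h4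
    simp only at h5 h6
    refine Prod.ext h5.symm ?_
    rw [← hOf_tOf hm, ← hOf_tOf hn, h6]

instance : TopologicalSpace (Pt D) where
  IsOpen U := (∀ i, IsOpen {p : ℝ × ℝ | emb D i p ∈ U}) ∧ ∀ α, IsOpen (chart D α ⁻¹' U)
  isOpen_univ := by simp
  isOpen_inter := by
    rintro s t ⟨h1, h2⟩ ⟨h3, h4⟩
    exact ⟨fun i => (h1 i).inter (h3 i), fun α => (h2 α).inter (h4 α)⟩
  isOpen_sUnion := by
    intro s hs
    refine ⟨fun i => ?_, fun α => ?_⟩
    · have : {p : ℝ × ℝ | emb D i p ∈ ⋃₀ s} = ⋃ t ∈ s, {p | emb D i p ∈ t} := by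
        ext p; simp
      rw [this]
      exact isOpen_biUnion fun t ht => (hs t ht).1 i
    · rw [sUnion_eq_biUnion, preimage_iUnion₂]
      exact isOpen_biUnion fun t ht => (hs t ht).2 α

theorem isOpen_iff {U : Set (Pt D)} :
    IsOpen U ↔ (∀ i, IsOpen {p : ℝ × ℝ | emb D i p ∈ U}) ∧ ∀ α, IsOpen (chart D α ⁻¹' U) := Iff.rfl

theorem continuous_emb (i : ℝ) : Continuous (emb D i) :=
  continuous_def.2 fun _ hU => (isOpen_iff.1 hU).1 i

theorem continuous_chart (α : D.L) : Continuous (chart D α) :=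
  continuous_def.2 fun _ hU => (isOpen_iff.1 hU).2 α

theorem isOpen_strip_part {U : Set (Pt D)} (hU : ∀ i, IsOpen {p : ℝ × ℝ | emb D i p ∈ U})
    (α : D.L) : IsOpen {p : ℝ × ℝ | p.2 ∉ H ∧ chart D α p ∈ U} := by
  have h1 : {p : ℝ × ℝ | p.2 ∉ H ∧ chart D α p ∈ U} =
      ⋃ n, ((univ : Set ℝ) ×ˢ S n) ∩
        (fun p : ℝ × ℝ => G n (D.c α) (p.1, tOf n p.2)) ⁻¹' {q | emb D (D.a α n) q ∈ U} := by
    ext p
    simp only [mem_ofPred_eq, mem_iUnion, mem_inter_iff, mem_prod, mem_univ, true_and, mem_preimage]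
    constructor
    · rintro ⟨h1, h2⟩
      obtain ⟨n, hn⟩ := exists_S h1
      rw [chart_S hn] at h2
      exact ⟨n, hn, h2⟩
    · rintro ⟨n, hn, h2⟩
      refine ⟨S_not_H hn, ?_⟩
      rw [chart_S hn]; exact h2
  rw [h1]
  refine isOpen_iUnion fun n => ?_
  refine ContinuousOn.isOpen_inter_preimage ?_ (isOpen_univ.prod (isOpen_S n)) (hU _)
  refine (continuous_G _ _).comp_continuousOn ?_
  refine continuousOn_fst.prodMk ?_
  exact (continuousOn_tOf n).comp continuousOn_snd (fun p hp => hp.2)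

theorem isOpenMap_emb (i : ℝ) : IsOpenMap (emb D i) := by
  intro V hV
  have hslice : ∀ j, IsOpen {p : ℝ × ℝ | emb D j p ∈ emb D i '' V} := by
    intro j
    by_cases h : j = i
    · subst h
      convert hV using 1
      ext p
      simp only [mem_ofPred_eq]
      exact (emb_injective j).mem_set_image
    · convert isOpen_empty using 1
      ext p
      simp only [mem_ofPred_eq, mem_empty_iff_false, iff_false]
      rintro ⟨q, -, hq⟩
      exact h (emb_inj hq).1.symm
  refine isOpen_iff.2 ⟨hslice, fun α => ?_⟩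
  convert isOpen_strip_part hslice α using 1
  ext p
  simp only [mem_preimage, mem_ofPred_eq]
  constructor
  · rintro ⟨q, hq, h⟩
    obtain ⟨n, hn, -⟩ := chart_eq_emb h.symm
    exact ⟨S_not_H hn, ⟨q, hq, h⟩⟩
  · exact fun h => h.2

theorem isOpenMap_chart (α : D.L) : IsOpenMap (chart D α) := by
  intro V hV
  have hslice : ∀ j, IsOpen {p : ℝ × ℝ | emb D j p ∈ chart D α '' V} := by
    intro j
    have h1 : {p : ℝ × ℝ | emb D j p ∈ chart D α '' V} =
        ⋃ n, ⋃ (_ : D.a α n = j), G n (D.c α) '' {q : ℝ × ℝ | (q.1, hOf n q.2) ∈ V} := by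
      ext p
      simp only [mem_ofPred_eq, mem_iUnion, exists_prop]
      constructor
      · rintro ⟨q, hq, h⟩
        obtain ⟨n, hn, h2, h3⟩ := chart_eq_emb h
        refine ⟨n, h2, (q.1, tOf n q.2), ?_, h3.symm⟩
        simp only [mem_ofPred_eq]
        rw [hOf_tOf hn]; exact hq
      · rintro ⟨n, h2, q, hq, rfl⟩
        refine ⟨(q.1, hOf n q.2), hq, ?_⟩
        rw [chart_S (n := n) (hOf_mem n q.2), tOf_hOf, h2]
    rw [h1]
    refine isOpen_iUnion fun n => isOpen_iUnion fun _ => ?_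
    refine isOpenMap_G _ _ _ ?_
    refine hV.preimage ?_
    exact continuous_fst.prodMk ((continuous_hOf n).comp continuous_snd)
  refine isOpen_iff.2 ⟨hslice, fun β => ?_⟩
  by_cases h : β = α
  · subst h
    rw [preimage_image_eq _ (chart_injective β)]
    exact hV
  · convert isOpen_strip_part hslice β using 1
    ext p
    simp only [mem_preimage, mem_ofPred_eq]
    constructor
    · rintro ⟨q, hq, hpq⟩
      refine ⟨?_, ⟨q, hq, hpq⟩⟩
      intro hp
      rw [chart_H hp] at hpq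
      exact h (chart_eq_inr hpq).1.symm
    · exact fun h => h.2

theorem isOpenEmbedding_emb (i : ℝ) : IsOpenEmbedding (emb D i) :=
  .of_continuous_injective_isOpenMap (continuous_emb i) (emb_injective i) (isOpenMap_emb i)

theorem isOpenEmbedding_chart (α : D.L) : IsOpenEmbedding (chart D α) :=
  .of_continuous_injective_isOpenMap (continuous_chart α) (chart_injective α) (isOpenMap_chart α)

theorem covering (x : Pt D) : (∃ i p, emb D i p = x) ∨ ∃ α p, ∃ h : p.2 ∈ H,
    x = Pt.bd α p h := by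
  rcases x with ⟨i, p⟩ | ⟨α, p, h⟩
  · exact Or.inl ⟨i, p, rfl⟩
  · exact Or.inr ⟨α, p, h, rfl⟩

end Pool.Agent.W639
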