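import Pool.Agent.W639.Mfd

/-!
# Properties of the glued manifold
-/

set_option autoImplicit false

namespace Pool.Agent.W639

open Set Topology

variable {D : Data}

theorem hOf_mem_S {n m : ℕ} {t : ℝ} (h : hOf n t ∈ S m) : n = m := S_unique (hOf_mem n t) h

theorem compact_piece (n : ℕ) (R : ℝ) : IsClosed (hOf n '' Icc (-R) R) :=
  (isCompact_Icc.image (continuous_hOf n)).isClosed

theorem H_not_piece {n : ℕ} {R h : ℝ} (hh : h ∈ H) : h ∉ hOf n '' Icc (-R) R := by
  rintro ⟨t, -, rfl⟩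
  exact S_not_H (hOf_mem n t) hh

theorem mem_piece {n : ℕ} {R h : ℝ} (hh : h ∈ S n) (h2 : h ∉ hOf n '' Icc (-R) R) :
    R < |tOf n h| := by
  by_contra hcon
  rw [not_lt, abs_le] at hcon
  exact h2 ⟨tOf n h, hcon, hOf_tOf hh⟩

/-- Two planes of the second kind meet in finitely many planes of the first kind. -/
theorem finite_common {α β : D.L} (hne : α ≠ β) : {n | ∃ m, D.a α n = D.a β m}.Finite := by
  have hx : 0 < |D.x α - D.x β| := by
    rw [abs_pos, sub_ne_zero]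
    exact fun h => hne (D.x_inj h)
  obtain ⟨N, hN⟩ := exists_nat_gt (2 / |D.x α - D.x β|)
  rw [div_lt_iff₀ hx] at hN
  have h1 : {n | ∃ m, D.a α n = D.a β m} ⊆ Iio N ∪ (D.a α) ⁻¹' ((D.a β) '' (Iio N)) := by
    rintro n ⟨m, hm⟩
    by_cases hn : n < N
    · exact Or.inl hn
    · by_cases hm2 : m < N
      · exact Or.inr ⟨m, hm2, hm.symm⟩
      · exfalso
        have h2 := D.a_lim α n
        have h3 := D.a_lim β m
        have h4 : (N : ℝ) ≤ n := by exact_mod_cast (not_lt.1 hn)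
        have h5 : (N : ℝ) ≤ m := by exact_mod_cast (not_lt.1 hm2)
        have h6 : 1 / ((n : ℝ) + 1) ≤ 1 / ((N : ℝ) + 1) := by gcongr
        have h7 : 1 / ((m : ℝ) + 1) ≤ 1 / ((N : ℝ) + 1) := by gcongr
        have h8 : |D.x α - D.x β| < 2 / ((N : ℝ) + 1) := by
          have h9 : (2:ℝ) / ((N : ℝ) + 1) = 1 / ((N : ℝ) + 1) + 1 / ((N : ℝ) + 1) := by ring
          rw [h9]
          rw [hm] at h2
          rw [abs_lt] at h2 h3 ⊢
          constructor <;> linarith [h2.1, h2.2, h3.1, h3.2]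
        rw [lt_div_iff₀ (by positivity)] at h8
        nlinarith
  refine Set.Finite.subset ((finite_Iio N).union ?_) h1
  exact ((finite_Iio N).image _).preimage ((D.a_inj α).injOn)

/-- A boundary point has a neighbourhood missing any other plane of the second kind. -/
theorem sep_planes {α β : D.L} (hne : α ≠ β) :
    ∃ V : Set (Pt D), IsOpen V ∧ (∀ p (h : p.2 ∈ H), Pt.bd α p h ∈ V) ∧
      Disjoint V (range (chart D β)) := by
  have hR : ∀ n, ∃ R : ℝ, ∀ m, D.a α n = D.a β m → ∀ q : ℝ × ℝ, R < |q.2| →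
      q ∈ K n (D.c α) → q ∈ K m (D.c β) → False := by
    intro n
    by_cases h : ∃ m, D.a α n = D.a β m
    · obtain ⟨m, hm⟩ := h
      obtain ⟨R, -, hR⟩ := far (D.c_irr α β hne) n m
      refine ⟨R, fun m' hm' q hq => ?_⟩
      have : m' = m := D.a_inj β (hm'.symm.trans hm)
      subst this
      exact hR q hq.le
    · exact ⟨0, fun m hm => (h ⟨m, hm⟩).elim⟩
  choose R hR using hR
  let W : Set ℝ := ⋂ n ∈ {n | ∃ m, D.a α n = D.a β m}, (hOf n '' Icc (-(R n)) (R n))ᶜ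
  have hW : IsOpen W :=
    (finite_common hne).isOpen_biInter fun n _ => (compact_piece n (R n)).isOpen_compl
  refine ⟨chart D α '' (univ ×ˢ W), isOpenMap_chart α _ (isOpen_univ.prod hW), ?_, ?_⟩
  · intro p h
    refine ⟨p, ⟨mem_univ _, ?_⟩, chart_H h⟩
    simp only [W, mem_iInter, mem_compl_iff]
    intro n _
    exact H_not_piece h
  · rw [Set.disjoint_left]
    rintro z ⟨p, ⟨-, hp⟩, rfl⟩ ⟨q, hq⟩
    by_cases hpH : p.2 ∈ H
    · rw [chart_H hpH] at hq
      exact hne (chart_eq_inr hq).1.symm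
    · obtain ⟨n, hn⟩ := exists_S hpH
      rw [chart_S hn] at hq
      obtain ⟨m, hm, h1, h2⟩ := chart_eq_emb hq
      simp only [W, mem_iInter, mem_compl_iff] at hp
      have h3 := mem_piece hn (hp n ⟨m, h1.symm⟩)
      refine hR n m h1.symm _ ?_ (G_mem n (D.c α) (p.1, tOf n p.2)) ?_
      · exact h3
      · rw [h2]; exact G_mem _ _ _

theorem sep_base_bd (i : ℝ) (p : ℝ × ℝ) (α : D.L) (q : ℝ × ℝ) (hq : q.2 ∈ H) :
    ∃ U V : Set (Pt D), IsOpen U ∧ IsOpen V ∧ emb D i p ∈ U ∧ Pt.bd α q hq ∈ V ∧ Disjoint U V := by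
  by_cases h : ∃ n, D.a α n = i
  · obtain ⟨n, rfl⟩ := h
    refine ⟨emb D (D.a α n) '' (univ ×ˢ Ioo (p.2 - 1) (p.2 + 1)),
      chart D α '' (univ ×ˢ (hOf n '' Icc (-(|p.2| + 1)) (|p.2| + 1))ᶜ),
      isOpenMap_emb _ _ (isOpen_univ.prod isOpen_Ioo),
      isOpenMap_chart _ _ (isOpen_univ.prod (compact_piece _ _).isOpen_compl),
      ⟨p, ⟨mem_univ _, by constructor <;> linarith⟩, rfl⟩,
      ⟨q, ⟨mem_univ _, H_not_piece hq⟩, chart_H hq⟩, ?_⟩
    rw [Set.disjoint_left]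
    rintro z ⟨p', ⟨-, hp'⟩, rfl⟩ ⟨q', ⟨-, hq'⟩, h2⟩
    obtain ⟨m, hm, h3, h4⟩ := chart_eq_emb h2
    have h5 : m = n := D.a_inj α h3
    subst h5
    have h6 := mem_piece hm hq'
    have h7 : p'.2 = tOf m q'.2 := by rw [h4]; rfl
    rw [← h7] at h6
    have h8 : |p'.2| ≤ |p.2| + 1 := by
      have h9 : |p'.2 - p.2| ≤ 1 := by
        rw [abs_le]; constructor <;> linarith [hp'.1, hp'.2]
      have := abs_sub_abs_le_abs_sub p'.2 p.2
      linarith
    linarith
  · refine ⟨range (emb D i), range (chart D α), (isOpenMap_emb i).isOpen_range,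
      (isOpenMap_chart α).isOpen_range, ⟨p, rfl⟩, ⟨q, chart_H hq⟩, ?_⟩
    rw [Set.disjoint_left]
    rintro z ⟨p', rfl⟩ ⟨q', h2⟩
    obtain ⟨m, -, h3, -⟩ := chart_eq_emb h2
    exact h ⟨m, h3⟩

theorem t2 : T2Space (Pt D) := by
  refine ⟨?_⟩
  have main : ∀ (i : ℝ) (p : ℝ × ℝ) (α : D.L) (q : ℝ × ℝ) (hq : q.2 ∈ H),
      (∃ U V : Set (Pt D), IsOpen U ∧ IsOpen V ∧ emb D i p ∈ U ∧ Pt.bd α q hq ∈ V ∧ Disjoint U V) :=
    sep_base_bd
  intro x y hxy
  rcases covering x with ⟨i, p, rfl⟩ | ⟨α, p, hp, rfl⟩ <;>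
    rcases covering y with ⟨j, q, rfl⟩ | ⟨β, q, hq, rfl⟩
  · by_cases hij : i = j
    · subst hij
      have hpq : p ≠ q := fun h => hxy (by rw [h])
      obtain ⟨U, V, hU, hV, hpU, hqV, hd⟩ := t2_separation hpq
      refine ⟨_, _, isOpenMap_emb i U hU, isOpenMap_emb i V hV, ⟨p, hpU, rfl⟩, ⟨q, hqV, rfl⟩, ?_⟩
      exact (Set.disjoint_image_iff (emb_injective i)).2 hd
    · refine ⟨_, _, (isOpenMap_emb i).isOpen_range, (isOpenMap_emb j).isOpen_range,
        ⟨p, rfl⟩, ⟨q, rfl⟩, ?_⟩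
      rw [Set.disjoint_left]
      rintro z ⟨p', rfl⟩ ⟨q', h2⟩
      exact hij (emb_inj h2).1.symm
  · exact main i p β q hq
  · obtain ⟨U, V, hU, hV, h1, h2, hd⟩ := main j q α p hp
    exact ⟨V, U, hV, hU, h2, h1, hd.symm⟩
  · by_cases hαβ : α = β
    · subst hαβ
      have hpq : p ≠ q := fun h => hxy (by subst h; rfl)
      obtain ⟨U, V, hU, hV, hpU, hqV, hd⟩ := t2_separation hpq
      refine ⟨_, _, isOpenMap_chart α U hU, isOpenMap_chart α V hV, ⟨p, hpU, chart_H hp⟩,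
        ⟨q, hqV, chart_H hq⟩, ?_⟩
      exact (Set.disjoint_image_iff (chart_injective α)).2 hd
    · obtain ⟨V, hV, h1, h2⟩ := sep_planes hαβ
      exact ⟨V, range (chart D β), hV, (isOpenMap_chart β).isOpen_range, h1 p hp,
        ⟨q, chart_H hq⟩, h2⟩

/-! ### The diagonal -/

/-- The heights allowed at stage `N`. -/
def W (N : ℕ) : Set ℝ := ⋂ n ∈ Iio N, (hOf n '' Icc (-(N : ℝ)) N)ᶜ

theorem isOpen_W (N : ℕ) : IsOpen (W N) :=
  (finite_Iio N).isOpen_biInter fun n _ => (compact_piece n N).isOpen_compl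

theorem H_sub_W {N : ℕ} {h : ℝ} (hh : h ∈ H) : h ∈ W N := by
  simp only [W, mem_iInter, mem_compl_iff]
  intro n _
  exact H_not_piece hh

theorem W_spec {N n : ℕ} {h : ℝ} (hh : h ∈ S n) (hW : h ∈ W N) (ht : |tOf n h| ≤ N) : N ≤ n := by
  by_contra hcon
  simp only [W, mem_iInter, mem_compl_iff] at hW
  have := mem_piece hh (hW n (not_le.1 hcon))
  linarith

/-- The small open sets of stage `N`. -/
inductive Small (D : Data) (N : ℕ) : Set (Pt D) → Prop
  | base (i : ℝ) (p : ℝ × ℝ) : Small D N (emb D i '' Metric.ball p (1 / ((N : ℝ) + 1)))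
  | plane (α : D.L) (p : ℝ × ℝ) :
      Small D N (chart D α '' (Metric.ball p (1 / ((N : ℝ) + 1)) ∩ Prod.snd ⁻¹' W N))

theorem Small.isOpen {N : ℕ} {U : Set (Pt D)} (h : Small D N U) : IsOpen U := by
  cases h with
  | base i p => exact isOpenMap_emb i _ Metric.isOpen_ball
  | plane α p =>
    exact isOpenMap_chart α _ (Metric.isOpen_ball.inter ((isOpen_W N).preimage continuous_snd))

theorem exists_small (N : ℕ) (x : Pt D) : ∃ U, Small D N U ∧ x ∈ U := by
  rcases covering x with ⟨i, p, rfl⟩ | ⟨α, p, hp, rfl⟩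
  · exact ⟨_, .base i p, ⟨p, Metric.mem_ball_self (by positivity), rfl⟩⟩
  · exact ⟨_, .plane α p, ⟨p, ⟨Metric.mem_ball_self (by positivity), H_sub_W hp⟩, chart_H hp⟩⟩

theorem dist_ball {N : ℕ} {p y z : ℝ × ℝ} (hy : y ∈ Metric.ball p (1 / ((N : ℝ) + 1)))
    (hz : z ∈ Metric.ball p (1 / ((N : ℝ) + 1))) : dist y z * ((N : ℝ) + 1) < 2 := by
  rw [Metric.mem_ball] at hy hz
  have h1 : dist y z ≤ dist y p + dist z p := dist_triangle_right _ _ _
  have h2 : dist y z < 2 / ((N : ℝ) + 1) := by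
    have : (2:ℝ) / ((N : ℝ) + 1) = 1 / ((N : ℝ) + 1) + 1 / ((N : ℝ) + 1) := by ring
    linarith
  rwa [lt_div_iff₀ (by positivity)] at h2

/-- Points of different kinds are separated at some stage. -/
theorem sep_mixed (i : ℝ) (p : ℝ × ℝ) (α : D.L) (q : ℝ × ℝ) (hq : q.2 ∈ H) :
    ∃ N, ∀ U, Small D N U → emb D i p ∈ U → Pt.bd α q hq ∈ U → False := by
  by_cases h : ∃ y, chart D α y = emb D i p
  · obtain ⟨y, hy⟩ := h
    have hyq : y ≠ q := by
      rintro rfl
      rw [chart_H hq] at hy; unfold emb at hy; cases hy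
    obtain ⟨N, hN⟩ := exists_nat_gt (2 / dist y q)
    rw [div_lt_iff₀ (dist_pos.2 hyq)] at hN
    refine ⟨N, fun U hU h1 h2 => ?_⟩
    cases hU with
    | base j r =>
      obtain ⟨z, -, hz⟩ := h2
      unfold emb at hz; cases hz
    | plane β r =>
      obtain ⟨z, hz, hz2⟩ := h2
      obtain ⟨rfl, rfl⟩ := chart_eq_inr hz2
      obtain ⟨w, hw, hw2⟩ := h1
      have : w = y := chart_injective _ (hw2.trans hy.symm)
      subst this
      have := dist_ball hw.1 hz.1
      have h3 := dist_nonneg (x := w) (y := z)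
      nlinarith
  · refine ⟨0, fun U hU h1 h2 => ?_⟩
    cases hU with
    | base j r =>
      obtain ⟨z, -, hz⟩ := h2
      unfold emb at hz; cases hz
    | plane β r =>
      obtain ⟨z, hz, hz2⟩ := h2
      obtain ⟨rfl, rfl⟩ := chart_eq_inr hz2
      obtain ⟨w, hw, hw2⟩ := h1
      exact h ⟨w, hw2⟩

theorem sep_small {x y : Pt D} (hxy : x ≠ y) : ∃ N, ∀ U, Small D N U → x ∈ U → y ∈ U → False := by
  rcases covering x with ⟨i, p, rfl⟩ | ⟨α, p, hp, rfl⟩ <;>
    rcases covering y with ⟨j, q, rfl⟩ | ⟨β, q, hq, rfl⟩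
  · by_cases hij : i = j
    · subst hij
      have hpq : p ≠ q := fun h => hxy (by rw [h])
      obtain ⟨N1, hN1⟩ := exists_nat_gt (2 / dist p q)
      rw [div_lt_iff₀ (dist_pos.2 hpq)] at hN1
      obtain ⟨N2, hN2⟩ := exists_nat_gt |p.2|
      obtain ⟨N3, hN3⟩ := slope hpq
      refine ⟨max N1 (max N2 N3), fun U hU h1 h2 => ?_⟩
      generalize hN : max N1 (max N2 N3) = N at hU
      have hN1' : (N1 : ℝ) ≤ N := by rw [← hN]; exact_mod_cast le_max_left _ _
      have hN2' : (N2 : ℝ) ≤ N := by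
        rw [← hN]; exact_mod_cast (le_max_left _ _).trans (le_max_right _ _)
      have hN3' : N3 ≤ N := by rw [← hN]; exact (le_max_right _ _).trans (le_max_right _ _)
      cases hU with
      | base j r =>
        obtain ⟨y, hy, hy2⟩ := h1
        obtain ⟨z, hz, hz2⟩ := h2
        obtain ⟨-, rfl⟩ := emb_inj hy2
        obtain ⟨-, rfl⟩ := emb_inj hz2
        have := dist_ball hy hz
        have h3 := dist_nonneg (x := y) (y := z)
        nlinarith
      | plane β r =>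
        obtain ⟨y, ⟨-, hyW⟩, hy2⟩ := h1
        obtain ⟨z, ⟨-, hzW⟩, hz2⟩ := h2
        obtain ⟨n, hn, h3, h4⟩ := chart_eq_emb hy2
        obtain ⟨m, hm, h5, h6⟩ := chart_eq_emb hz2
        have h7 : m = n := D.a_inj β (h5.trans h3.symm)
        subst h7
        have h8 : p.2 = tOf m y.2 := by rw [h4]; rfl
        have h9 : N ≤ m := W_spec hn hyW (by rw [← h8]; linarith)
        refine hN3 m (hN3'.trans h9) (D.c β) ?_ ?_
        · rw [h4]; exact G_mem _ _ _
        · rw [h6]; exact G_mem _ _ _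
    · have hij' : 0 < |i - j| := by rw [abs_pos, sub_ne_zero]; exact hij
      obtain ⟨N1, hN1⟩ := exists_nat_gt (2 / |i - j|)
      rw [div_lt_iff₀ hij'] at hN1
      obtain ⟨N2, hN2⟩ := exists_nat_gt |p.2|
      obtain ⟨N3, hN3⟩ := exists_nat_gt |q.2|
      refine ⟨max N1 (max N2 N3), fun U hU h1 h2 => ?_⟩
      generalize hN : max N1 (max N2 N3) = N at hU
      have hN1' : (N1 : ℝ) ≤ N := by rw [← hN]; exact_mod_cast le_max_left _ _
      have hN2' : (N2 : ℝ) ≤ N := by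
        rw [← hN]; exact_mod_cast (le_max_left _ _).trans (le_max_right _ _)
      have hN3' : (N3 : ℝ) ≤ N := by
        rw [← hN]; exact_mod_cast (le_max_right _ _).trans (le_max_right _ _)
      cases hU with
      | base k r =>
        obtain ⟨y, hy, hy2⟩ := h1
        obtain ⟨z, hz, hz2⟩ := h2
        exact hij ((emb_inj hy2).1.symm.trans (emb_inj hz2).1)
      | plane β r =>
        obtain ⟨y, ⟨-, hyW⟩, hy2⟩ := h1
        obtain ⟨z, ⟨-, hzW⟩, hz2⟩ := h2
        obtain ⟨n, hn, h3, h4⟩ := chart_eq_emb hy2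
        obtain ⟨m, hm, h5, h6⟩ := chart_eq_emb hz2
        have h8 : p.2 = tOf n y.2 := by rw [h4]; rfl
        have h9 : N ≤ n := W_spec hn hyW (by rw [← h8]; linarith)
        have h10 : q.2 = tOf m z.2 := by rw [h6]; rfl
        have h11 : N ≤ m := W_spec hm hzW (by rw [← h10]; linarith)
        have h12 := D.a_lim β n
        have h13 := D.a_lim β m
        rw [h3] at h12
        rw [h5] at h13
        have h14 : (N : ℝ) ≤ n := by exact_mod_cast h9
        have h15 : (N : ℝ) ≤ m := by exact_mod_cast h11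
        have h16 : 1 / ((n : ℝ) + 1) ≤ 1 / ((N : ℝ) + 1) := by gcongr
        have h17 : 1 / ((m : ℝ) + 1) ≤ 1 / ((N : ℝ) + 1) := by gcongr
        have h18 : |i - j| < 2 / ((N : ℝ) + 1) := by
          have h19 : (2:ℝ) / ((N : ℝ) + 1) = 1 / ((N : ℝ) + 1) + 1 / ((N : ℝ) + 1) := by ring
          rw [h19]
          rw [abs_lt] at h12 h13 ⊢
          constructor <;> linarith [h12.1, h12.2, h13.1, h13.2]
        rw [lt_div_iff₀ (by positivity)] at h18
        nlinarith
  · exact sep_mixed i p β q hq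
  · obtain ⟨N, hN⟩ := sep_mixed j q α p hp
    exact ⟨N, fun U hU h1 h2 => hN U hU h2 h1⟩
  · by_cases hαβ : α = β
    · subst hαβ
      have hpq : p ≠ q := fun h => hxy (by subst h; rfl)
      obtain ⟨N, hN⟩ := exists_nat_gt (2 / dist p q)
      rw [div_lt_iff₀ (dist_pos.2 hpq)] at hN
      refine ⟨N, fun U hU h1 h2 => ?_⟩
      cases hU with
      | base j r =>
        obtain ⟨z, -, hz⟩ := h2
        unfold emb at hz; cases hz
      | plane β r =>
        obtain ⟨z, hz, hz2⟩ := h2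
        obtain ⟨rfl, rfl⟩ := chart_eq_inr hz2
        obtain ⟨w, hw, hw2⟩ := h1
        obtain ⟨-, rfl⟩ := chart_eq_inr hw2
        have := dist_ball hw.1 hz.1
        have h3 := dist_nonneg (x := w) (y := z)
        nlinarith
    · refine ⟨0, fun U hU h1 h2 => ?_⟩
      cases hU with
      | base j r =>
        obtain ⟨z, -, hz⟩ := h2
        unfold emb at hz; cases hz
      | plane γ r =>
        obtain ⟨z, hz, hz2⟩ := h2
        obtain ⟨w, hw, hw2⟩ := h1
        exact hαβ ((chart_eq_inr hw2).1.symm.trans (chart_eq_inr hz2).1)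

theorem isGδ_diagonal : IsGδ (Set.diagonal (Pt D)) := by
  have h1 : Set.diagonal (Pt D) =
      ⋂ N : ℕ, ⋃ U, ⋃ (_ : Small D N U), U ×ˢ U := by
    ext z
    simp only [mem_diagonal_iff, mem_iInter, mem_iUnion, mem_prod, exists_prop]
    constructor
    · intro hz N
      obtain ⟨U, hU, hxU⟩ := exists_small N z.1
      exact ⟨U, hU, hxU, hz ▸ hxU⟩
    · intro hz
      by_contra hne
      obtain ⟨N, hN⟩ := sep_small hne
      obtain ⟨U, hU, h1, h2⟩ := hz N
      exact hN U hU h1 h2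
  rw [h1]
  refine IsGδ.iInter_of_isOpen fun N => ?_
  exact isOpen_iUnion fun U => isOpen_iUnion fun hU => hU.isOpen.prod hU.isOpen

end Pool.Agent.W639
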