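import Mathlib

/-!
# Sequences of reals catching every countable partition
-/

set_option autoImplicit false

namespace Pool.Agent.W639

open Set Cardinal

/-- Choice along a well order avoiding countable sets attached to the earlier choices. -/
theorem exists_choice {L X : Type} (P : L → Set X) (R : X → X → Prop)
    (hsymm : ∀ y z, R y z → R z y) (hc : ∀ y, {z | R y z}.Countable)
    (h : ∀ α, #L ≤ #(P α)) (hu : ∀ α, ℵ₀ < #(P α)) :
    ∃ f : L → X, (∀ α, f α ∈ P α) ∧ ∀ α β, α ≠ β → ¬ R (f α) (f β) := by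
  classical
  obtain ⟨r, wo, hr⟩ := Cardinal.exists_ord_eq L
  have key : ∀ (α : L) (g : {β // r β α} → X),
      (P α \ ⋃ b, {z | R (g b) z}).Nonempty := by
    intro α g
    by_contra hne
    rw [Set.not_nonempty_iff_eq_empty, Set.sdiff_eq_empty] at hne
    have h1 : #(P α) ≤ #(⋃ b, {z | R (g b) z} : Set X) := Cardinal.mk_le_mk_of_subset hne
    have h2 : #(⋃ b, {z | R (g b) z} : Set X) ≤ #{β // r β α} * ℵ₀ := by
      refine (Cardinal.mk_iUnion_le _).trans ?_
      gcongr
      refine ciSup_le' fun b => ?_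
      exact Cardinal.le_aleph0_iff_set_countable.2 (hc _)
    have h3 : #{β // r β α} < #L := Cardinal.card_typein_lt α hr
    have h4 : #{β // r β α} * ℵ₀ < #(P α) :=
      Cardinal.mul_lt_of_lt (hu α).le (h3.trans_le (h α)) (hu α)
    exact absurd (h1.trans h2) (not_le.2 h4)
  let f : L → X := wo.wf.fix fun α g => (key α fun b => g b.1 b.2).some
  have hf : ∀ α, f α = (key α fun b => f b.1).some := fun α => wo.wf.fix_eq _ α
  have hf2 : ∀ α, f α ∈ P α \ ⋃ b : {β // r β α}, {z | R (f b.1) z} := by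
    intro α
    rw [hf α]
    exact (key α fun b => f b.1).some_mem
  refine ⟨f, fun α => (hf2 α).1, ?_⟩
  have hlt : ∀ α β, r β α → ¬ R (f β) (f α) := by
    intro α β hβ hR
    exact (hf2 α).2 (mem_iUnion.2 ⟨⟨β, hβ⟩, hR⟩)
  intro α β hne hR
  rcases trichotomous_of r α β with h1 | h1 | h1
  · exact hlt β α h1 hR
  · exact hne h1
  · exact hlt α β h1 (hsymm _ _ hR)

theorem continuum_le_mk_closure_diff {S : Set ℝ} (hS : S.Countable)
    (hc : ¬ (closure S).Countable) : continuum ≤ #(closure S \ S : Set ℝ) := by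
  obtain ⟨f, hf1, -, hf3⟩ :=
    (isClosed_closure (s := S)).exists_nat_bool_injection_of_not_countable hc
  have h1 : continuum ≤ #(closure S) := by
    have h2 : #(range f) ≤ #(closure S) := Cardinal.mk_le_mk_of_subset hf1
    rw [Cardinal.mk_range_eq f hf3] at h2
    simpa using h2
  by_contra hlt
  rw [not_le] at hlt
  have h3 : #(closure S) ≤ #(closure S \ S : Set ℝ) + #S := by
    have h4 : closure S ⊆ (closure S \ S) ∪ S := by
      intro x hx
      by_cases hxS : x ∈ S
      · exact Or.inr hxS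
      · exact Or.inl ⟨hx, hxS⟩
    exact (Cardinal.mk_le_mk_of_subset h4).trans (Cardinal.mk_union_le _ _)
  have h5 : #(closure S \ S : Set ℝ) + #S < continuum :=
    Cardinal.add_lt_of_lt aleph0_le_continuum hlt
      ((Cardinal.le_aleph0_iff_set_countable.2 hS).trans_lt aleph0_lt_continuum)
  exact absurd (h1.trans h3) (not_le.2 h5)

/-- A point of the closure outside the set is the limit of an injective sequence of the set. -/
theorem exists_seq_inj {S : Set ℝ} {x : ℝ} (hx : x ∈ closure S \ S) :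
    ∃ a : ℕ → ℝ, Function.Injective a ∧ (∀ n, a n ∈ S) ∧
      ∀ n, |a n - x| < 1 / ((n : ℝ) + 1) := by
  have key : ∀ ε : ℝ, 0 < ε → ∃ y ∈ S, |y - x| < ε := by
    intro ε hε
    obtain ⟨y, hy, h⟩ := Metric.mem_closure_iff.1 hx.1 ε hε
    exact ⟨y, hy, by rwa [← Real.dist_eq, dist_comm]⟩
  have hpos : ∀ y ∈ S, 0 < |y - x| := by
    intro y hy
    rw [abs_pos, sub_ne_zero]
    rintro rfl
    exact hx.2 hy
  have step : ∀ (n : ℕ) (y : S), ∃ z : S, |(z : ℝ) - x| < min |(y : ℝ) - x| (1 / ((n : ℝ) + 2)) := by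
    intro n y
    obtain ⟨z, hz, h⟩ := key (min |(y : ℝ) - x| (1 / ((n : ℝ) + 2)))
      (lt_min (hpos y y.2) (by positivity))
    exact ⟨⟨z, hz⟩, h⟩
  choose g hg using step
  obtain ⟨y0, hy0, h0⟩ := key 1 one_pos
  let a : ℕ → S := fun n => Nat.rec (motive := fun _ => S) ⟨y0, hy0⟩ (fun n y => g n y) n
  have ha : ∀ n, |(a (n + 1) : ℝ) - x| < min |(a n : ℝ) - x| (1 / ((n : ℝ) + 2)) :=
    fun n => hg n (a n)
  have hanti : StrictAnti fun n => |(a n : ℝ) - x| :=
    strictAnti_nat_of_succ_lt fun n => (ha n).trans_le (min_le_left _ _)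
  refine ⟨fun n => a n, ?_, fun n => (a n).2, ?_⟩
  · intro m n hmn
    apply hanti.injective
    simp only at hmn ⊢
    rw [hmn]
  · intro n
    cases n with
    | zero => simpa [a] using h0
    | succ n =>
      refine ((ha n).trans_le (min_le_right _ _)).trans_eq ?_
      push_cast
      ring

/-- The combinatorial data from which the manifold is built. -/
structure Data where
  L : Type
  a : L → ℕ → ℝ
  x : L → ℝ
  c : L → ℝ
  a_inj : ∀ α, Function.Injective (a α)
  a_lim : ∀ α n, |a α n - x α| < 1 / ((n : ℝ) + 1)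
  x_inj : Function.Injective x
  c_irr : ∀ α β, α ≠ β → ∀ q : ℚ, c α - c β ≠ q
  guess : ∀ (K : Type) [Countable K] (F : ℝ → K) (J : K → Set ℝ), (∀ k, IsOpen (J k)) →
    (∀ k, (J k).Nonempty) → ∃ α k, (∀ n, F (a α n) = k) ∧ c α ∈ J k

theorem exists_data : Nonempty Data := by
  classical
  let L : Type := {p : (ℕ → ℝ) × (ℚ × ℚ) // ¬ (closure (range p.1)).Countable ∧ p.2.1 < p.2.2}
  have hL : #L ≤ continuum := by
    refine (Cardinal.mk_subtype_le _).trans ?_
    simp [Cardinal.mk_real]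
  have hP : ∀ α : L, continuum ≤ #(closure (range α.1.1) \ range α.1.1 : Set ℝ) := fun α =>
    continuum_le_mk_closure_diff (countable_range _) α.2.1
  obtain ⟨x, hx1, hx2⟩ := exists_choice (L := L) (X := ℝ)
    (fun α => closure (range α.1.1) \ range α.1.1) (fun y z => y = z)
    (fun y z h => h.symm) (fun y => by simp)
    (fun α => hL.trans (hP α)) (fun α => aleph0_lt_continuum.trans_le (hP α))
  have hQ : ∀ α : L, #(Ioo (α.1.2.1 : ℝ) (α.1.2.2 : ℝ)) = continuum := fun α =>
    Cardinal.mk_Ioo_real (by exact_mod_cast α.2.2)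
  obtain ⟨c, hc1, hc2⟩ := exists_choice (L := L) (X := ℝ)
    (fun α => Ioo (α.1.2.1 : ℝ) (α.1.2.2 : ℝ)) (fun y z => ∃ q : ℚ, y - z = q)
    (fun y z ⟨q, hq⟩ => ⟨-q, by push_cast; linarith⟩)
    (fun y => by
      have : {z : ℝ | ∃ q : ℚ, y - z = q} ⊆ range (fun q : ℚ => y - (q : ℝ)) := by
        rintro z ⟨q, hq⟩
        exact ⟨q, by simp only; linarith⟩
      exact (countable_range _).mono this)
    (fun α => hL.trans (hQ α).ge) (fun α => aleph0_lt_continuum.trans_le (hQ α).ge)
  choose a ha1 ha2 ha3 using fun α : L => exists_seq_inj (hx1 α)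
  refine ⟨⟨L, a, x, c, ha1, ha3, ?_, ?_, ?_⟩⟩
  · intro α β h
    by_contra hne
    exact hx2 α β hne h
  · intro α β hne q hq
    exact hc2 α β hne ⟨q, hq⟩
  · intro K _ F J hJ hJ2
    obtain ⟨k, hk⟩ : ∃ k, ¬ (F ⁻¹' {k}).Countable := by
      by_contra hcon
      push Not at hcon
      have : (⋃ k, F ⁻¹' {k}).Countable := countable_iUnion hcon
      have h2 : (⋃ k, F ⁻¹' {k}) = Set.univ := by
        ext y; simp
      rw [h2] at this
      exact Cardinal.not_countable_real this
    have hsep : TopologicalSpace.IsSeparable (F ⁻¹' {k}) :=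
      TopologicalSpace.IsSeparable.of_separableSpace _
    obtain ⟨T, hT1, hT2, hT3⟩ := hsep.exists_countable_dense_subset
    have hTne : T.Nonempty := by
      by_contra hemp
      rw [Set.not_nonempty_iff_eq_empty] at hemp
      rw [hemp, closure_empty] at hT3
      exact hk ((countable_empty).mono hT3)
    obtain ⟨s, hs⟩ := hT2.exists_eq_range hTne
    obtain ⟨y, hy⟩ := hJ2 k
    obtain ⟨ε, hε, hb⟩ := Metric.isOpen_iff.1 (hJ k) y hy
    obtain ⟨q1, hq1, hq1'⟩ := exists_rat_btwn (show y - ε < y by linarith)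
    obtain ⟨q2, hq2, hq2'⟩ := exists_rat_btwn (show y < y + ε by linarith)
    have hα : ¬ (closure (range s)).Countable ∧ q1 < q2 := by
      refine ⟨fun hcount => hk (hcount.mono ?_), by exact_mod_cast hq1'.trans hq2⟩
      rw [← hs]; exact hT3
    refine ⟨⟨(s, (q1, q2)), hα⟩, k, fun n => ?_, ?_⟩
    · have h1 := ha2 ⟨(s, (q1, q2)), hα⟩ n
      simp only at h1
      rw [← hs] at h1
      exact hT1 h1
    · have h1 := hc1 ⟨(s, (q1, q2)), hα⟩
      apply hb
      rw [Metric.mem_ball, Real.dist_eq, abs_lt]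
      simp only [mem_Ioo] at h1
      constructor <;> linarith [h1.1, h1.2]

end Pool.Agent.W639
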